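import Pool.Agent.H95.VG.Targets2
import Pool.Agent.H65.VG.ARE

/-! module GW2 of MP_6803f2_an: from the weak to the pointwise Gauduchon identity -/

open MeasureTheory Set Filter Topology
open scoped ENNReal NNReal ContDiff ComplexConjugate

namespace Pool.Agent.H41.VG

open Pool.Agent.H95.VG Pool.Agent.H65.VG

variable {n : ℕ}

/-- integration by parts twice -/
lemma ibp_twice {f g : V n → ℝ} (hf : ContDiff ℝ 2 f) (hfc : HasCompactSupport f)
    (hg : ContDiff ℝ 2 g) (v : V n) :
    Integrable (fun x => f x * fderiv ℝ (fun y => fderiv ℝ g y v) x v) ∧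
    Integrable (fun x => g x * fderiv ℝ (fun y => fderiv ℝ f y v) x v) ∧
    ∫ x, f x * fderiv ℝ (fun y => fderiv ℝ g y v) x v
      = ∫ x, g x * fderiv ℝ (fun y => fderiv ℝ f y v) x v := by
  have hf1 : ContDiff ℝ 1 (fun y => fderiv ℝ f y v) :=
    (hf.fderiv_right (m := 1) (by norm_num)).clm_apply contDiff_const
  have hg1 : ContDiff ℝ 1 (fun y => fderiv ℝ g y v) :=
    (hg.fderiv_right (m := 1) (by norm_num)).clm_apply contDiff_const
  have hf1c : HasCompactSupport (fun y => fderiv ℝ f y v) := hfc.fderiv_apply ℝ v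
  have hf2 : Continuous (fun x => fderiv ℝ (fun y => fderiv ℝ f y v) x v) :=
    (hf1.continuous_fderiv (by norm_num)).clm_apply continuous_const
  have hg2 : Continuous (fun x => fderiv ℝ (fun y => fderiv ℝ g y v) x v) :=
    (hg1.continuous_fderiv (by norm_num)).clm_apply continuous_const
  have hf2c : HasCompactSupport (fun x => fderiv ℝ (fun y => fderiv ℝ f y v) x v) :=
    hf1c.fderiv_apply ℝ v
  have i1 : Integrable (fun x => f x * fderiv ℝ (fun y => fderiv ℝ g y v) x v) :=
    (hf.continuous.mul hg2).integrable_of_hasCompactSupport hfc.mul_right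
  have i2 : Integrable (fun x => g x * fderiv ℝ (fun y => fderiv ℝ f y v) x v) :=
    (hg.continuous.mul hf2).integrable_of_hasCompactSupport hf2c.mul_left
  have i3 : Integrable (fun x => fderiv ℝ f x v * fderiv ℝ g x v) :=
    (hf1.continuous.mul hg1.continuous).integrable_of_hasCompactSupport hf1c.mul_right
  have i4 : Integrable (fun x => f x * fderiv ℝ g x v) :=
    (hf.continuous.mul hg1.continuous).integrable_of_hasCompactSupport hfc.mul_right
  have i5 : Integrable (fun x => g x * fderiv ℝ f x v) :=
    (hg.continuous.mul hf1.continuous).integrable_of_hasCompactSupport hf1c.mul_left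
  have i6 : Integrable (fun x => fderiv ℝ g x v * fderiv ℝ f x v) :=
    (hg1.continuous.mul hf1.continuous).integrable_of_hasCompactSupport hf1c.mul_left
  refine ⟨i1, i2, ?_⟩
  have e1 : ∫ x, f x * fderiv ℝ (fun y => fderiv ℝ g y v) x v
      = - ∫ x, fderiv ℝ f x v * fderiv ℝ g x v :=
    integral_mul_fderiv_eq_neg_fderiv_mul_of_integrable (g := fun y => fderiv ℝ g y v) i3 i1 i4
      (fun x _ => hf.differentiable (by norm_num) x) (fun x _ => hg1.differentiable (by norm_num) x)
  have e2 : ∫ x, g x * fderiv ℝ (fun y => fderiv ℝ f y v) x v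
      = - ∫ x, fderiv ℝ g x v * fderiv ℝ f x v :=
    integral_mul_fderiv_eq_neg_fderiv_mul_of_integrable (g := fun y => fderiv ℝ f y v) i6 i2 i5
      (fun x _ => hg.differentiable (by norm_num) x) (fun x _ => hf1.differentiable (by norm_num) x)
  rw [e1, e2]
  congr 1
  refine integral_congr_ae (Eventually.of_forall fun x => ?_)
  exact mul_comm _ _

/-- the Laplacian is symmetric -/
lemma ibp_lev {f g : V n → ℝ} (hf : ContDiff ℝ 2 f) (hfc : HasCompactSupport f)
    (hg : ContDiff ℝ 2 g) :
    ∫ x, f x * ∑ k, lev g x (ek k) = ∫ x, g x * ∑ k, lev f x (ek k) := by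
  have e : ∀ f g : V n → ℝ, (fun x => f x * ∑ k, lev g x (ek k)) = fun x => ∑ k : Fin n,
      ((4 : ℝ)⁻¹ * (f x * fderiv ℝ (fun y => fderiv ℝ g y (ek k)) x (ek k))
      + (4 : ℝ)⁻¹ * (f x * fderiv ℝ (fun y => fderiv ℝ g y (Complex.I • ek k)) x
        (Complex.I • ek k))) := by
    intro f g
    funext x
    rw [Finset.mul_sum]
    refine Finset.sum_congr rfl fun k _ => ?_
    unfold lev
    rw [smul_eq_mul]
    ring
  rw [e f g, e g f]
  have h := fun v => ibp_twice hf hfc hg v
  have j1 : ∀ k : Fin n, Integrable (fun x =>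
      (4 : ℝ)⁻¹ * (f x * fderiv ℝ (fun y => fderiv ℝ g y (ek k)) x (ek k))
      + (4 : ℝ)⁻¹ * (f x * fderiv ℝ (fun y => fderiv ℝ g y (Complex.I • ek k)) x
        (Complex.I • ek k))) := fun k =>
    ((h (ek k)).1.const_mul (4 : ℝ)⁻¹).add ((h (Complex.I • ek k)).1.const_mul (4 : ℝ)⁻¹)
  have j2 : ∀ k : Fin n, Integrable (fun x =>
      (4 : ℝ)⁻¹ * (g x * fderiv ℝ (fun y => fderiv ℝ f y (ek k)) x (ek k))
      + (4 : ℝ)⁻¹ * (g x * fderiv ℝ (fun y => fderiv ℝ f y (Complex.I • ek k)) x
        (Complex.I • ek k))) := fun k =>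
    ((h (ek k)).2.1.const_mul (4 : ℝ)⁻¹).add ((h (Complex.I • ek k)).2.1.const_mul (4 : ℝ)⁻¹)
  rw [integral_finsetSum _ (fun k _ => j1 k), integral_finsetSum _ (fun k _ => j2 k)]
  refine Finset.sum_congr rfl fun k _ => ?_
  rw [integral_add ((h (ek k)).1.const_mul _) ((h (Complex.I • ek k)).1.const_mul _),
    integral_add ((h (ek k)).2.1.const_mul _) ((h (Complex.I • ek k)).2.1.const_mul _)]
  simp only [integral_const_mul]
  rw [(h (ek k)).2.2, (h (Complex.I • ek k)).2.2]

lemma lev_congr {g g' : V n → ℝ} {x : V n} (h : g =ᶠ[𝓝 x] g') (v : V n) :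
    lev g x v = lev g' x v := by
  unfold lev
  have h1 : ∀ w : V n, fderiv ℝ (fun y => fderiv ℝ g y w) x = fderiv ℝ (fun y => fderiv ℝ g' y w) x := by
    intro w
    refine Filter.EventuallyEq.fderiv_eq ?_
    filter_upwards [h.fderiv (𝕜 := ℝ)] with y hy
    rw [hy]
  rw [h1, h1]

lemma lev_zero_fun (x v : V n) : lev (fun _ : V n => (0 : ℝ)) x v = 0 := by
  unfold lev
  simp

variable {X : Type} [TopologicalSpace X] {ι : Type}

/-- the density of one chart, seen in the chart `b` -/
noncomputable def HH (A : Atl n X ι) (w : ι → V n → ℝ) (b a : ι) (y : V n) : ℝ :=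
  ((A.φ b).symm.trans (A.φ a)).source.indicator
    (fun y => ‖(jac (fun y => A.φ a ((A.φ b).symm y)) y).det‖ ^ 2 *
      ∑ k, lev (w a) (A.φ a ((A.φ b).symm y)) (ek k)) y

lemma lam_supp {w : V n → ℝ} (hs : ∀ y, w y ≠ 0 → y ∈ Metric.closedBall (0 : V n) (3 / 2))
    {y : V n} (hy : ∑ k, lev w y (ek k) ≠ 0) : y ∈ Metric.closedBall (0 : V n) (3 / 2) := by
  by_contra hc
  apply hy
  refine Finset.sum_eq_zero fun k _ => ?_
  have : w =ᶠ[𝓝 y] fun _ => (0 : ℝ) := by
    filter_upwards [(Metric.isClosed_closedBall (x := (0 : V n)) (ε := 3 / 2)).isOpen_compl.mem_nhds hc] with y' hy'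
    by_contra h
    exact hy' (hs y' h)
  rw [lev_congr this, lev_zero_fun]

lemma continuous_lam {w : V n → ℝ} (hw : ContDiff ℝ 2 w) :
    Continuous (fun y => ∑ k, lev w y (ek k)) := by
  refine continuous_finsetSum _ fun k _ => ?_
  unfold lev
  have h : ∀ v : V n, Continuous (fun x => fderiv ℝ (fun y => fderiv ℝ w y v) x v) := by
    intro v
    have h1 : ContDiff ℝ 1 (fun y => fderiv ℝ w y v) :=
      (hw.fderiv_right (m := 1) (by norm_num)).clm_apply contDiff_const
    exact (h1.continuous_fderiv (by norm_num)).clm_apply continuous_const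
  exact ((h (ek k)).add (h (Complex.I • ek k))).const_smul (4 : ℝ)⁻¹

lemma ball_target (A : Atl n X ι) (a : ι) :
    Metric.closedBall (0 : V n) (3 / 2) ⊆ (A.φ a).target :=
  (Metric.closedBall_subset_closedBall (by norm_num)).trans (A.ball a)

lemma continuousOn_HH [T2Space X] (A : Atl n X ι) (w : ι → V n → ℝ) (b a : ι)
    (hw : ContDiff ℝ 2 (w a))
    (hs : ∀ y, w a y ≠ 0 → y ∈ Metric.closedBall (0 : V n) (3 / 2)) :
    ContinuousOn (HH A w b a) (A.φ b).target := by
  set U := ((A.φ b).symm.trans (A.φ a)).source with hU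
  have hUo : IsOpen U := ((A.φ b).symm.trans (A.φ a)).open_source
  have hτ : DifferentiableOn ℂ (fun y => A.φ a ((A.φ b).symm y)) U := A.hol b a
  have hcon : ContinuousOn (fun y => ‖(jac (fun y => A.φ a ((A.φ b).symm y)) y).det‖ ^ 2 *
      ∑ k, lev (w a) (A.φ a ((A.φ b).symm y)) (ek k)) U := by
    refine ContinuousOn.mul ((continuousOn_det hUo hτ).norm.pow 2) ?_
    exact (continuous_lam hw).comp_continuousOn hτ.continuousOn
  intro y hy
  apply ContinuousAt.continuousWithinAt
  by_cases hyU : y ∈ U
  · have h1 := hcon.continuousAt (hUo.mem_nhds hyU)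
    refine h1.congr ?_
    filter_upwards [hUo.mem_nhds hyU] with y' hy'
    unfold HH
    rw [indicator_of_mem hy']
  · have hx : (A.φ b).symm y ∉ (A.φ a).source := by
      intro h
      apply hyU
      rw [hU, OpenPartialHomeomorph.trans_source]
      exact ⟨hy, h⟩
    have hK : IsCompact ((A.φ a).symm '' Metric.closedBall (0 : V n) (3 / 2)) :=
      (isCompact_closedBall _ _).image_of_continuousOn
        ((A.φ a).continuousOn_symm.mono (ball_target A a))
    have hxK : (A.φ b).symm y ∉ (A.φ a).symm '' Metric.closedBall (0 : V n) (3 / 2) := by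
      rintro ⟨u, hu, hu2⟩
      apply hx
      rw [← hu2]
      exact (A.φ a).map_target (ball_target A a hu)
    have h2 : ∀ᶠ y' in 𝓝 y, (A.φ b).symm y' ∉ (A.φ a).symm '' Metric.closedBall (0 : V n) (3 / 2) :=
      ((A.φ b).continuousAt_symm hy).eventually (hK.isClosed.isOpen_compl.mem_nhds hxK)
    have h3 : HH A w b a =ᶠ[𝓝 y] fun _ => 0 := by
      filter_upwards [h2] with y' hy'
      unfold HH
      by_cases hU' : y' ∈ U
      · rw [indicator_of_mem hU']
        have : ∑ k, lev (w a) (A.φ a ((A.φ b).symm y')) (ek k) = 0 := by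
          by_contra hne
          have h4 := lam_supp hs hne
          apply hy'
          rw [hU, OpenPartialHomeomorph.trans_source] at hU'
          exact ⟨_, h4, (A.φ a).left_inv hU'.2⟩
        rw [this, mul_zero]
      · rw [indicator_of_notMem hU']
    exact (continuousAt_const (y := (0 : ℝ))).congr h3.symm

/-- change of variables from the chart `a` to the chart `b` -/
lemma change_var [T2Space X] (A : Atl n X ι) (w : ι → V n → ℝ) (b a : ι)
    (hs : ∀ y, w a y ≠ 0 → y ∈ Metric.closedBall (0 : V n) (3 / 2))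
    (p : V n → ℝ) (g : X → ℝ) (hg1 : ∀ x ∈ (A.φ b).source, g x = p (A.φ b x))
    (hg2 : ∀ x ∉ (A.φ b).source, g x = 0) :
    ∫ y, g ((A.φ a).symm y) * ∑ k, lev (w a) y (ek k) = ∫ y, p y * HH A w b a y := by
  set U := ((A.φ b).symm.trans (A.φ a)).source with hU
  have hUo : IsOpen U := ((A.φ b).symm.trans (A.φ a)).open_source
  have hτ : DifferentiableOn ℂ (fun y => A.φ a ((A.φ b).symm y)) U := A.hol b a
  have hmem : ∀ y ∈ U, y ∈ (A.φ b).target ∧ (A.φ b).symm y ∈ (A.φ a).source := by
    intro y hy
    rw [hU, OpenPartialHomeomorph.trans_source] at hy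
    exact hy
  have hinj : InjOn (fun y => A.φ a ((A.φ b).symm y)) U :=
    ((A.φ b).symm.trans (A.φ a)).injOn
  have h1 : ∀ y, y ∉ (fun y => A.φ a ((A.φ b).symm y)) '' U →
      g ((A.φ a).symm y) * ∑ k, lev (w a) y (ek k) = 0 := by
    intro y hy
    by_contra hne
    have hl : ∑ k, lev (w a) y (ek k) ≠ 0 := right_ne_zero_of_mul hne
    have hg : g ((A.φ a).symm y) ≠ 0 := left_ne_zero_of_mul hne
    have hyt : y ∈ (A.φ a).target := ball_target A a (lam_supp hs hl)
    have hxb : (A.φ a).symm y ∈ (A.φ b).source := by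
      by_contra h
      exact hg (hg2 _ h)
    apply hy
    refine ⟨A.φ b ((A.φ a).symm y), ?_, ?_⟩
    · rw [hU, OpenPartialHomeomorph.trans_source]
      refine ⟨(A.φ b).map_source hxb, ?_⟩
      change (A.φ b).symm (A.φ b ((A.φ a).symm y)) ∈ (A.φ a).source
      rw [(A.φ b).left_inv hxb]
      exact (A.φ a).map_target hyt
    · change A.φ a ((A.φ b).symm (A.φ b ((A.φ a).symm y))) = y
      rw [(A.φ b).left_inv hxb, (A.φ a).right_inv hyt]
  rw [← setIntegral_eq_integral_of_forall_compl_eq_zero h1,
    integral_image_eq_integral_abs_det_fderiv_smul volume hUo.measurableSet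
      (f' := fun y => fderiv ℝ (fun y => A.φ a ((A.φ b).symm y)) y)
      (fun y hy => (((hτ.differentiableAt (hUo.mem_nhds hy)).restrictScalars ℝ).hasFDerivAt).hasFDerivWithinAt)
      hinj]
  have h2 : ∀ y, y ∉ U → p y * HH A w b a y = 0 := by
    intro y hy
    unfold HH
    rw [indicator_of_notMem hy, mul_zero]
  rw [← setIntegral_eq_integral_of_forall_compl_eq_zero h2]
  refine setIntegral_congr_fun hUo.measurableSet fun y hy => ?_
  obtain ⟨hy1, hy2⟩ := hmem y hy
  rw [det_real (hτ.differentiableAt (hUo.mem_nhds hy)), (A.φ a).left_inv hy2,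
    hg1 _ ((A.φ b).map_target hy1), (A.φ b).right_inv hy1]
  unfold HH
  rw [indicator_of_mem hy, abs_of_nonneg (by positivity), smul_eq_mul]
  ring

/-- module GW2 -/
theorem gw2 : T_GW2 := by
  intro n X _ _ _ ι _ A w hws hw0 hsupp hpos hweak
  classical
  have hw2 : ∀ a, ContDiff ℝ 2 (w a) := fun a => by exact_mod_cast contDiff_infty.1 (hws a) 2
  refine ⟨hws, hw0, hsupp, hpos, fun b x hx => ?_⟩
  -- the continuous function on the target of `b`
  have hcont : ContinuousOn (fun y => ∑ a, HH A w b a y) (A.φ b).target :=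
    continuousOn_finsetSum _ fun a _ => continuousOn_HH A w b a (hw2 a) (hsupp a)
  have hzero : ∀ p : V n → ℝ, ContDiff ℝ ∞ p → HasCompactSupport p →
      tsupport p ⊆ (A.φ b).target → ∫ y, p y • (∑ a, HH A w b a y) = 0 := by
    intro p hp hpc hpt
    set g : X → ℝ := fun x => if x ∈ (A.φ b).source then p (A.φ b x) else 0 with hgdef
    have hg1 : ∀ x ∈ (A.φ b).source, g x = p (A.φ b x) := fun x hx => by simp [hgdef, hx]
    have hg2 : ∀ x ∉ (A.φ b).source, g x = 0 := fun x hx => by simp [hgdef, hx]
    have hK : IsCompact ((A.φ b).symm '' tsupport p) :=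
      hpc.isCompact.image_of_continuousOn ((A.φ b).continuousOn_symm.mono hpt)
    have hgK : ∀ x, x ∉ (A.φ b).symm '' tsupport p → g x = 0 := by
      intro x hxK
      by_cases hxb : x ∈ (A.φ b).source
      · rw [hg1 x hxb]
        by_contra h
        exact hxK ⟨A.φ b x, subset_tsupport _ h, (A.φ b).left_inv hxb⟩
      · exact hg2 x hxb
    have hgs : ∀ a, ContDiffOn ℝ ∞ (fun y => g ((A.φ a).symm y)) (A.φ a).target := by
      intro a y hy
      apply ContDiffAt.contDiffWithinAt
      by_cases hxb : (A.φ a).symm y ∈ (A.φ b).source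
      · have hU : y ∈ ((A.φ a).symm.trans (A.φ b)).source := by
          rw [OpenPartialHomeomorph.trans_source]
          exact ⟨hy, hxb⟩
        have hUo := ((A.φ a).symm.trans (A.φ b)).open_source
        have h1 : ContDiffAt ℝ ∞ (fun y => A.φ b ((A.φ a).symm y)) y :=
          ((smo n (V n) _ _ hUo (A.hol a b)).2.1).contDiffAt (hUo.mem_nhds hU)
        have h2 : ContDiffAt ℝ ∞ (fun y => p (A.φ b ((A.φ a).symm y))) y :=
          hp.contDiffAt.comp y h1
        refine h2.congr_of_eventuallyEq ?_
        filter_upwards [hUo.mem_nhds hU] with y' hy'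
        rw [OpenPartialHomeomorph.trans_source] at hy'
        exact hg1 _ hy'.2
      · have hxK : (A.φ a).symm y ∉ (A.φ b).symm '' tsupport p := by
          rintro ⟨u, hu, hu2⟩
          apply hxb
          rw [← hu2]
          exact (A.φ b).map_target (hpt hu)
        have h2 : (fun y => g ((A.φ a).symm y)) =ᶠ[𝓝 y] fun _ => 0 := by
          filter_upwards [((A.φ a).continuousAt_symm hy).eventually
            (hK.isClosed.isOpen_compl.mem_nhds hxK)] with y' hy'
          exact hgK _ hy'
        exact contDiffAt_const.congr_of_eventuallyEq h2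
    have hsum := hweak g hgs
    -- integrate by parts
    have hibp : ∀ a, ∫ y, w a y * ∑ k, lev (fun y => g ((A.φ a).symm y)) y (ek k)
        = ∫ y, g ((A.φ a).symm y) * ∑ k, lev (w a) y (ek k) := by
      intro a
      let c : ContDiffBump (0 : V n) := ⟨2, 3, by norm_num, by norm_num⟩
      have hG : ContDiff ℝ 2 (fun y => c y * g ((A.φ a).symm y)) := by
        rw [contDiff_iff_contDiffAt]
        intro y
        by_cases hy : y ∈ Metric.closedBall (0 : V n) 3
        · have h1 : ContDiffAt ℝ 2 (fun y => g ((A.φ a).symm y)) y := by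
            have := (hgs a).contDiffAt ((A.φ a).open_target.mem_nhds (A.ball a hy))
            exact_mod_cast contDiffAt_infty.1 this 2
          exact c.contDiffAt.mul h1
        · have h2 : (fun y => c y * g ((A.φ a).symm y)) =ᶠ[𝓝 y] fun _ => 0 := by
            filter_upwards [(Metric.isClosed_closedBall (x := (0 : V n)) (ε := 3)).isOpen_compl.mem_nhds hy] with y' hy'
            rw [mem_compl_iff, Metric.mem_closedBall, not_le] at hy'
            rw [c.zero_of_le_dist hy'.le, zero_mul]
          exact contDiffAt_const.congr_of_eventuallyEq h2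
      have hwc : HasCompactSupport (w a) :=
        HasCompactSupport.intro (isCompact_closedBall (0 : V n) (3 / 2)) (fun y hy => by
          by_contra h
          exact hy (hsupp a y h))
      have h1 := ibp_lev (hw2 a) hwc hG
      calc ∫ y, w a y * ∑ k, lev (fun y => g ((A.φ a).symm y)) y (ek k)
          = ∫ y, w a y * ∑ k, lev (fun y => c y * g ((A.φ a).symm y)) y (ek k) := by
            refine integral_congr_ae (Eventually.of_forall fun y => ?_)
            simp only
            by_cases h0 : w a y = 0
            · rw [h0, zero_mul, zero_mul]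
            · have hy := hsupp a y h0
              congr 1
              refine Finset.sum_congr rfl fun k _ => lev_congr ?_ _
              have hn : Metric.closedBall (0 : V n) 2 ∈ 𝓝 y := by
                refine mem_of_superset (Metric.isOpen_ball.mem_nhds (x := y) (s := Metric.ball 0 2) ?_)
                  Metric.ball_subset_closedBall
                rw [Metric.mem_closedBall] at hy
                rw [Metric.mem_ball]
                linarith
              filter_upwards [hn] with y' hy'
              rw [c.one_of_mem_closedBall hy', one_mul]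
        _ = ∫ y, (c y * g ((A.φ a).symm y)) * ∑ k, lev (w a) y (ek k) := h1
        _ = ∫ y, g ((A.φ a).symm y) * ∑ k, lev (w a) y (ek k) := by
            refine integral_congr_ae (Eventually.of_forall fun y => ?_)
            simp only
            by_cases h0 : ∑ k, lev (w a) y (ek k) = 0
            · rw [h0, mul_zero, mul_zero]
            · have hy := lam_supp (hsupp a) h0
              have hy2 : y ∈ Metric.closedBall (0 : V n) c.rIn := by
                rw [Metric.mem_closedBall] at hy ⊢
                change dist y 0 ≤ 2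
                linarith
              rw [c.one_of_mem_closedBall hy2, one_mul]
    have hcv : ∀ a, ∫ y, g ((A.φ a).symm y) * ∑ k, lev (w a) y (ek k)
        = ∫ y, p y * HH A w b a y := fun a => change_var A w b a (hsupp a) p g hg1 hg2
    have hint : ∀ a, Integrable (fun y => p y * HH A w b a y) := by
      intro a
      have hc : Continuous (fun y => p y * HH A w b a y) := by
        rw [continuous_iff_continuousAt]
        intro y
        by_cases hy : y ∈ tsupport p
        · exact hp.continuous.continuousAt.mul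
            ((continuousOn_HH A w b a (hw2 a) (hsupp a)).continuousAt
              ((A.φ b).open_target.mem_nhds (hpt hy)))
        · have h2 : (fun y => p y * HH A w b a y) =ᶠ[𝓝 y] fun _ => 0 := by
            filter_upwards [(isClosed_tsupport p).isOpen_compl.mem_nhds hy] with y' hy'
            rw [image_eq_zero_of_notMem_tsupport hy', zero_mul]
          exact (continuousAt_const (y := (0 : ℝ))).congr h2.symm
      exact hc.integrable_of_hasCompactSupport hpc.mul_right
    have e1 : (fun y => p y • (∑ a, HH A w b a y)) = fun y => ∑ a, p y * HH A w b a y := by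
      funext y
      rw [smul_eq_mul, Finset.mul_sum]
    rw [e1, integral_finsetSum _ (fun a _ => hint a), ← hsum]
    refine Finset.sum_congr rfl fun a _ => ?_
    rw [hibp a, hcv a]
  have hae : ∀ᵐ y, y ∈ (A.φ b).target → ∑ a, HH A w b a y = 0 :=
    (A.φ b).open_target.ae_eq_zero_of_integral_contDiff_smul_eq_zero
      (hcont.locallyIntegrableOn (A.φ b).open_target.measurableSet) hzero
  have hEq : EqOn (fun y => ∑ a, HH A w b a y) (fun _ => 0) (A.φ b).target := by
    refine Measure.eqOn_open_of_ae_eq (μ := volume) ?_ (A.φ b).open_target hcont continuousOn_const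
    exact (ae_restrict_iff' (A.φ b).open_target.measurableSet).2 hae
  have hy := hEq ((A.φ b).map_source hx)
  simp only at hy
  rw [← hy]
  refine Finset.sum_congr rfl fun a _ => ?_
  unfold HH
  by_cases hxa : x ∈ (A.φ a).source
  · have hU : A.φ b x ∈ ((A.φ b).symm.trans (A.φ a)).source := by
      rw [OpenPartialHomeomorph.trans_source]
      refine ⟨(A.φ b).map_source hx, ?_⟩
      change (A.φ b).symm (A.φ b x) ∈ (A.φ a).source
      rwa [(A.φ b).left_inv hx]
    rw [indicator_of_mem hxa, indicator_of_mem hU, (A.φ b).left_inv hx]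
    rfl
  · have hU : A.φ b x ∉ ((A.φ b).symm.trans (A.φ a)).source := by
      rw [OpenPartialHomeomorph.trans_source]
      rintro ⟨_, h⟩
      change (A.φ b).symm (A.φ b x) ∈ (A.φ a).source at h
      rw [(A.φ b).left_inv hx] at h
      exact hxa h
    rw [indicator_of_notMem hxa, indicator_of_notMem hU]

end Pool.Agent.H41.VG
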