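import Pool.Agent.H95.VG.Targets1

/-! module CHR of MP_6803f2_an -/

open MeasureTheory Set Filter Topology
open scoped ENNReal NNReal ContDiff ComplexConjugate

namespace Pool.Agent.H41.VG

open Pool.Agent.H95.VG

variable {n : ℕ}

lemma fderiv_cf (Y : V n → V n) (z : V n) (k : Fin n) :
    fderiv ℂ Y z (cf Y k z) = (jac Y z).det • (ek k : V n) := by
  have h1 : ∀ v : V n, fderiv ℂ Y z v = (jac Y z).mulVec v := by
    intro v
    have hv : v = ∑ j, v j • (ek j : V n) := by
      funext i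
      simp [ek, Finset.sum_apply, Pi.single_apply]
    funext i
    conv_lhs => rw [hv]
    rw [map_sum, Finset.sum_apply]
    simp only [Matrix.mulVec, dotProduct, jac, Matrix.of_apply]
    refine Finset.sum_congr rfl fun j _ => ?_
    rw [map_smul, Pi.smul_apply, smul_eq_mul, mul_comm]
  rw [h1]
  have h2 : cf Y k z = (jac Y z).adjugate.mulVec (ek k) := by
    funext i
    simp [cf, ek, Matrix.mulVec_single]
  rw [h2, Matrix.mulVec_mulVec, Matrix.mul_adjugate, Matrix.smul_mulVec, Matrix.one_mulVec]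

lemma lev_smul_ek (h2 : T_LVM) (q : V n → ℝ) (y : V n) (hq : ContDiffAt ℝ 2 q y) (c : ℂ)
    (k : Fin n) : lev q y (c • ek k) = ‖c‖ ^ 2 * lev q y (ek k) := by
  have e1 := ((h2 n y (c • ek k)).2 q hq).2
  have e2 := ((h2 n y (ek k)).2 q hq).2
  have s1 : ∀ (v : V n), (∀ i, v i ≠ 0 → i = k) →
      (∑ i, ∑ j, v i * conj (v j) * dzb (fun x => dr q x (ek i)) y (ek j))
      = v k * conj (v k) * dzb (fun x => dr q x (ek k)) y (ek k) := by
    intro v hv
    rw [Finset.sum_eq_single k, Finset.sum_eq_single k]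
    · intro j _ hj
      have : v j = 0 := by by_contra h; exact hj (hv j h)
      simp [this]
    · simp
    · intro i _ hi
      have : v i = 0 := by by_contra h; exact hi (hv i h)
      simp [this]
    · simp
  rw [s1 (c • ek k) (by intro i hi; by_contra h; exact hi (by simp [ek, h]))] at e1
  rw [s1 (ek k) (by intro i hi; by_contra h; exact hi (by simp [ek, h]))] at e2
  have hk : (ek k : V n) k = 1 := by simp [ek]
  rw [Pi.smul_apply, smul_eq_mul, hk, mul_one] at e1
  rw [hk, map_one, one_mul, one_mul] at e2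
  have : ((lev q y (c • ek k) : ℝ) : ℂ) = ((‖c‖ ^ 2 * lev q y (ek k) : ℝ) : ℂ) := by
    rw [e1, ← e2, Complex.mul_conj, Complex.normSq_eq_norm_sq]
    push_cast
    ring
  exact_mod_cast this

/-- module CHR -/
theorem chr (h1 : T_LIN) (h2 : T_LVM) (h3 : T_CHN) : T_CHR := by
  intro n O Y hO hY z hz k
  have hc := h3 n O Y hO hY z hz (cf Y k z)
  have hf := fderiv_cf Y z k
  refine ⟨hf, fun q hq => ⟨?_, ?_⟩, fun q hq => ?_, fun q hq => ?_⟩
  · rw [(hc.1 q hq).1, hf]
    exact ((h1 n (Y z)).1 q 0 (ek k) _).2.1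
  · rw [(hc.1 q hq).2, hf]
    exact ((h1 n (Y z)).1 q 0 (ek k) _).2.2.2.1
  · rw [hc.2.1 q hq, hf]
    have e1 := ((h1 n (Y z)).2.2.2.2 q ((jac Y z).det • ek k)).1
    rw [e1, Finset.sum_eq_single k]
    · simp [ek]
    · intro j _ hj
      simp [ek, hj]
    · simp
  · rw [hc.2.2.2 q hq, hf]
    exact lev_smul_ek h2 q (Y z) hq _ k

end Pool.Agent.H41.VG
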