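import Pool.Agent.H95.VG.Targets3
import Pool.Agent.H65.VG.ARE
import Pool.Agent.H65.VG.WHL
import Pool.Agent.H65.VG.SMO
import Pool.Agent.H73.VG.LIN
import Pool.Agent.H73.VG.LVM
import Pool.Agent.H41.VG.CHR
import Pool.Agent.H41.VG.CHN

/-! counting preimages of holomorphic maps (used by DEG and LCC of MP_6803f2_an) -/

open MeasureTheory Set Filter Topology
open scoped ENNReal NNReal ContDiff ComplexConjugate

namespace Pool.Agent.H41.VG

open Pool.Agent.H95.VG Pool.Agent.H65.VG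

variable {n : ℕ}

/-- number of regular preimages -/
noncomputable def nv (O : Set (V n)) (Y : V n → V n) (w : V n) : ℝ≥0∞ :=
  ∑' _z : {z // z ∈ O ∧ Y z = w ∧ (jac Y z).det ≠ 0}, (1 : ℝ≥0∞)

lemma nv_eq (O : Set (V n)) (Y : V n → V n) (w : V n) :
    nv O Y w = ({z | z ∈ O ∧ Y z = w ∧ (jac Y z).det ≠ 0}.encard : ℝ≥0∞) :=
  ENNReal.tsum_set_one _

lemma measurable_nv {O S : Set (V n)} {Y : V n → V n} (hO : IsOpen O)
    (hY : DifferentiableOn ℂ Y O) (hS : MeasurableSet S) (hSO : S ⊆ O) :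
    Measurable (nv S Y) :=
  (are n O S Y (fun _ => 1) hO hY hS hSO measurable_const).1

lemma lintegral_nv {O S : Set (V n)} {Y : V n → V n} (hO : IsOpen O)
    (hY : DifferentiableOn ℂ Y O) (hS : MeasurableSet S) (hSO : S ⊆ O) :
    ∫⁻ z in S, ENNReal.ofReal (‖(jac Y z).det‖ ^ 2) = ∫⁻ y, nv S Y y := by
  have h := (are n O S Y (fun _ => 1) hO hY hS hSO measurable_const).2.1
  simp only [one_mul] at h
  exact h

lemma meas_inter {O B : Set (V n)} {Y : V n → V n} (hO : IsOpen O)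
    (hY : DifferentiableOn ℂ Y O) (hB : MeasurableSet B) : MeasurableSet (O ∩ Y ⁻¹' B) := by
  have h1 : Measurable (fun z : O => Y z) :=
    (continuousOn_iff_continuous_domRestrict.1 hY.continuousOn).measurable
  have h2 : O ∩ Y ⁻¹' B = Subtype.val '' ((fun z : O => Y z) ⁻¹' B) := by
    ext z
    constructor
    · rintro ⟨hz, hz2⟩
      exact ⟨⟨z, hz⟩, hz2, rfl⟩
    · rintro ⟨⟨z, hz⟩, hz2, rfl⟩
      exact ⟨hz, hz2⟩
  rw [h2]
  exact hO.measurableSet.subtype_image (h1 hB)

lemma nv_inter (O B : Set (V n)) (Y : V n → V n) (y : V n) :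
    nv (O ∩ Y ⁻¹' B) Y y = B.indicator (nv O Y) y := by
  classical
  by_cases hy : y ∈ B
  · rw [indicator_of_mem hy, nv_eq, nv_eq]
    congr 2
    ext z
    constructor
    · rintro ⟨h1, h2, h3⟩
      exact ⟨h1.1, h2, h3⟩
    · rintro ⟨h1, h2, h3⟩
      refine ⟨⟨h1, ?_⟩, h2, h3⟩
      change Y z ∈ B
      rwa [h2]
  · rw [indicator_of_notMem hy, nv_eq]
    have : {z | z ∈ O ∩ Y ⁻¹' B ∧ Y z = y ∧ (jac Y z).det ≠ 0} = ∅ := by
      ext z
      rw [mem_empty_iff_false, iff_false]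
      rintro ⟨h1, h2, h3⟩
      apply hy
      rw [← h2]
      exact h1.2
    rw [this]
    simp

/-- push forward of the Jacobian measure -/
lemma map_eq {O : Set (V n)} {Y : V n → V n} (hO : IsOpen O) (hY : DifferentiableOn ℂ Y O) :
    Measure.map Y ((volume.restrict O).withDensity
      (fun z => ENNReal.ofReal (‖(jac Y z).det‖ ^ 2))) = volume.withDensity (nv O Y) := by
  have hae : AEMeasurable Y ((volume.restrict O).withDensity
      (fun z => ENNReal.ofReal (‖(jac Y z).det‖ ^ 2))) :=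
    (hY.continuousOn.aemeasurable hO.measurableSet).mono_ac (withDensity_absolutelyContinuous _ _)
  ext B hB
  rw [Measure.map_apply_of_aemeasurable hae hB]
  have h1 : ((volume.restrict O).withDensity (fun z => ENNReal.ofReal (‖(jac Y z).det‖ ^ 2)))
      (Y ⁻¹' B) = ((volume.restrict O).withDensity
        (fun z => ENNReal.ofReal (‖(jac Y z).det‖ ^ 2))) (O ∩ Y ⁻¹' B) := by
    refine measure_congr ?_
    have h2 : ∀ᵐ z ∂((volume.restrict O).withDensity
        (fun z => ENNReal.ofReal (‖(jac Y z).det‖ ^ 2))), z ∈ O :=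
      (withDensity_absolutelyContinuous _ _).ae_le (ae_restrict_mem hO.measurableSet)
    filter_upwards [h2] with z hz
    apply propext
    exact ⟨fun h => ⟨hz, h⟩, fun h => h.2⟩
  have hm := meas_inter hO hY hB
  rw [h1, withDensity_apply _ hm, Measure.restrict_restrict hm,
    inter_eq_left.2 inter_subset_left,
    lintegral_nv hO hY hm inter_subset_left, withDensity_apply _ hB, ← lintegral_indicator hB]
  refine lintegral_congr fun y => ?_
  exact nv_inter O B Y y

/-- change of variables with multiplicity, Bochner form -/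
lemma integral_nv {O : Set (V n)} {Y : V n → V n} (hO : IsOpen O) (hY : DifferentiableOn ℂ Y O)
    (hfin : ∫⁻ z in O, ENNReal.ofReal (‖(jac Y z).det‖ ^ 2) < ⊤) {h : V n → ℂ}
    (hh : Continuous h) :
    ∫ z in O, ((‖(jac Y z).det‖ ^ 2 : ℝ) : ℂ) * h (Y z)
      = ∫ w, (((nv O Y w).toReal : ℝ) : ℂ) * h w := by
  have hae : AEMeasurable Y ((volume.restrict O).withDensity
      (fun z => ENNReal.ofReal (‖(jac Y z).det‖ ^ 2))) :=
    (hY.continuousOn.aemeasurable hO.measurableSet).mono_ac (withDensity_absolutelyContinuous _ _)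
  have hd : AEMeasurable (fun z => ENNReal.ofReal (‖(jac Y z).det‖ ^ 2)) (volume.restrict O) :=
    (((continuousOn_det hO hY).norm.pow 2).aemeasurable hO.measurableSet).ennreal_ofReal
  have h1 : ∫ z in O, ((‖(jac Y z).det‖ ^ 2 : ℝ) : ℂ) * h (Y z)
      = ∫ z, h (Y z) ∂((volume.restrict O).withDensity
        (fun z => ENNReal.ofReal (‖(jac Y z).det‖ ^ 2))) := by
    rw [integral_withDensity_eq_integral_toReal_smul₀ hd
      (Eventually.of_forall fun z => ENNReal.ofReal_lt_top)]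
    refine integral_congr_ae (Eventually.of_forall fun z => ?_)
    simp only
    rw [ENNReal.toReal_ofReal (by positivity), Complex.real_smul]
  have hm := measurable_nv hO hY hO.measurableSet (subset_refl O)
  have hfin2 : ∫⁻ y, nv O Y y < ⊤ := by
    rw [← lintegral_nv hO hY hO.measurableSet (subset_refl O)]
    exact hfin
  have h2 : ∫ w, (((nv O Y w).toReal : ℝ) : ℂ) * h w = ∫ w, h w ∂(volume.withDensity (nv O Y)) := by
    rw [integral_withDensity_eq_integral_toReal_smul hm (ae_lt_top hm hfin2.ne)]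
    refine integral_congr_ae (Eventually.of_forall fun z => ?_)
    simp only
    rw [Complex.real_smul]
  rw [h1, h2, ← map_eq hO hY, integral_map hae hh.aestronglyMeasurable]

lemma dzb_zero_of_notMem {p : V n → ℂ} {y : V n} (hy : y ∉ tsupport p) (v : V n) :
    dzb p y v = 0 := by
  have h1 : p =ᶠ[𝓝 y] fun _ => 0 := by
    filter_upwards [(isClosed_tsupport p).isOpen_compl.mem_nhds hy] with y' hy'
    exact image_eq_zero_of_notMem_tsupport hy'
  unfold dzb
  rw [h1.fderiv_eq]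
  simp

lemma continuous_dzb {p : V n → ℂ} (hp : ContDiff ℝ 1 p) (v : V n) :
    Continuous (fun y => dzb p y v) := by
  have h1 : ∀ v : V n, Continuous (fun y => fderiv ℝ p y v) := fun v =>
    (hp.continuous_fderiv (by norm_num)).clm_apply continuous_const
  unfold dzb
  exact ((h1 v).add (continuous_const.mul (h1 (Complex.I • v)))).div_const 2

/-- number of preimages is constant -/
theorem const_count {O : Set (V n)} {Y : V n → V n} {δ : ℝ} (hδ : 0 < δ) (hO : IsOpen O)
    (hY : DifferentiableOn ℂ Y O)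
    (hfin : ∫⁻ z in O ∩ Y ⁻¹' Metric.ball 0 δ, ENNReal.ofReal (‖(jac Y z).det‖ ^ 2) < ⊤)
    (hz : ∀ p : V n → ℂ, ContDiff ℝ ∞ p → HasCompactSupport p → tsupport p ⊆ Metric.ball 0 δ →
      ∀ k, ∫ z in O, (jac Y z).det * dzb (fun x => p (Y x)) z (cf Y k z) = 0) :
    ∃ d : ℕ, (∀ᵐ w ∂(volume.restrict (Metric.ball (0 : V n) δ)),
      {z | z ∈ O ∧ Y z = w}.encard = d) ∧
      (d : ℝ≥0∞) * volume (Metric.ball (0 : V n) δ)
        = ∫⁻ z in O ∩ Y ⁻¹' Metric.ball 0 δ, ENNReal.ofReal (‖(jac Y z).det‖ ^ 2) := by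
  set B : Set (V n) := Metric.ball 0 δ with hB
  set O₁ : Set (V n) := O ∩ Y ⁻¹' B with hO₁d
  have hO₁ : IsOpen O₁ := hY.continuousOn.isOpen_inter_preimage hO Metric.isOpen_ball
  have hsub : O₁ ⊆ O := inter_subset_left
  have hY₁ : DifferentiableOn ℂ Y O₁ := hY.mono hsub
  have hm : Measurable (nv O₁ Y) := measurable_nv hO₁ hY₁ hO₁.measurableSet (subset_refl _)
  have hL := lintegral_nv hO₁ hY₁ hO₁.measurableSet (subset_refl _)
  have hfin2 : ∫⁻ y, nv O₁ Y y < ⊤ := by
    rw [← hL]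
    exact hfin
  have hlt := ae_lt_top hm hfin2.ne
  have hCHR : T_CHR := chr Pool.Agent.H73.VG.lin Pool.Agent.H73.VG.lvm (chn smo)
  -- outside of the ball the count vanishes
  have hout : ∀ y, y ∉ B → nv O₁ Y y = 0 := by
    intro y hy
    rw [hO₁d, nv_inter, indicator_of_notMem hy]
  have hint : Integrable (fun y => (((nv O₁ Y y).toReal : ℝ) : ℂ)) := by
    have : Integrable (fun y => (nv O₁ Y y).toReal) :=
      integrable_toReal_of_lintegral_ne_top hm.aemeasurable hfin2.ne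
    exact this.ofReal
  have key := whl n 0 δ (fun y => (((nv O₁ Y y).toReal : ℝ) : ℂ)) hδ hint.integrableOn (by
    intro p hp hpc hps k
    have hp1 : ContDiff ℝ 1 p := hp.of_le (by exact_mod_cast le_top)
    have e1 : ∫ y in Metric.ball 0 δ, (((nv O₁ Y y).toReal : ℝ) : ℂ) * dzb p y (ek k)
        = ∫ y, (((nv O₁ Y y).toReal : ℝ) : ℂ) * dzb p y (ek k) := by
      refine setIntegral_eq_integral_of_forall_compl_eq_zero fun y hy => ?_
      rw [hout y hy]
      simp
    rw [e1, ← integral_nv hO₁ hY₁ hfin (continuous_dzb hp1 (ek k))]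
    have e2 : ∫ z in O₁, ((‖(jac Y z).det‖ ^ 2 : ℝ) : ℂ) * dzb p (Y z) (ek k)
        = ∫ z in O₁, (jac Y z).det * dzb (fun x => p (Y x)) z (cf Y k z) := by
      refine setIntegral_congr_fun hO₁.measurableSet fun z hz1 => ?_
      have hc := ((hCHR n O Y hO hY z (hsub hz1) k).2.1 p
        (hp1.differentiable (by norm_num) _)).2
      change ((‖(jac Y z).det‖ ^ 2 : ℝ) : ℂ) * dzb p (Y z) (ek k)
        = (jac Y z).det * dzb (fun x => p (Y x)) z (cf Y k z)
      rw [hc, ← mul_assoc, Complex.mul_conj, Complex.normSq_eq_norm_sq]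
    rw [e2, ← hz p hp hpc hps k]
    symm
    refine setIntegral_eq_of_subset_of_forall_sdiff_eq_zero hO.measurableSet hsub fun z hz1 => ?_
    have hc := ((hCHR n O Y hO hY z hz1.1 k).2.1 p
        (hp1.differentiable (by norm_num) _)).2
    rw [hc, dzb_zero_of_notMem (fun h => hz1.2 ⟨hz1.1, hps h⟩), mul_zero, mul_zero])
  obtain ⟨b, hb⟩ := key.2 (fun y => Complex.ofReal_im _)
  -- almost every value is regular
  have hreg : ∀ᵐ y ∂(volume.restrict B), ((({z | z ∈ O ∧ Y z = y}.encard : ℕ∞) : ℝ≥0∞)) = nv O₁ Y y := by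
    have hnull : volume (Y '' {z ∈ O | (jac Y z).det = 0}) = 0 :=
      (are n O O Y (fun _ => 1) hO hY hO.measurableSet (subset_refl _) measurable_const).2.2
    have h1 : ∀ᵐ y ∂(volume.restrict B), y ∉ Y '' {z ∈ O | (jac Y z).det = 0} :=
      ae_restrict_of_ae (measure_eq_zero_iff_ae_notMem.1 hnull)
    filter_upwards [h1, ae_restrict_mem Metric.isOpen_ball.measurableSet] with y hy hyB
    rw [hO₁d, nv_inter, indicator_of_mem hyB, nv_eq]
    congr 2
    ext z
    constructor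
    · rintro ⟨h1, h2⟩
      refine ⟨h1, h2, fun h => hy ⟨z, ⟨h1, h⟩, h2⟩⟩
    · rintro ⟨h1, h2, h3⟩
      exact ⟨h1, h2⟩
  have hbr : ∀ᵐ y ∂(volume.restrict B), (nv O₁ Y y).toReal = b := by
    filter_upwards [hb] with y hy
    exact_mod_cast hy
  have hex : ∀ᵐ y ∂(volume.restrict B), ∃ d : ℕ, {z | z ∈ O ∧ Y z = y}.encard = d ∧ (d : ℝ) = b := by
    filter_upwards [hreg, hbr, ae_restrict_of_ae hlt] with y h1 h2 h3
    have h4 : ({z | z ∈ O ∧ Y z = y}.encard : ℕ∞) ≠ ⊤ := by
      intro h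
      rw [h] at h1
      rw [← h1] at h3
      simp at h3
    obtain ⟨d, hd⟩ := ENat.ne_top_iff_exists.1 h4
    refine ⟨d, hd.symm, ?_⟩
    rw [← h2, ← h1, ← hd]
    simp
  have hne : (ae (volume.restrict B)).NeBot := by
    rw [ae_neBot, Ne, Measure.restrict_eq_zero]
    exact (Metric.measure_ball_pos volume _ hδ).ne'
  obtain ⟨y₀, d, hd1, hd2⟩ := hex.exists
  have hall : ∀ᵐ w ∂(volume.restrict B), {z | z ∈ O ∧ Y z = w}.encard = d := by
    filter_upwards [hex] with y hy
    obtain ⟨d', h1, h2⟩ := hy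
    rw [h1]
    congr 1
    have : (d' : ℝ) = d := by rw [h2, hd2]
    exact_mod_cast this
  refine ⟨d, hall, ?_⟩
  rw [hL]
  have e3 : ∫⁻ y, nv O₁ Y y = ∫⁻ y in B, nv O₁ Y y := by
    rw [← lintegral_indicator Metric.isOpen_ball.measurableSet]
    refine lintegral_congr fun y => ?_
    by_cases hy : y ∈ B
    · rw [indicator_of_mem hy]
    · rw [indicator_of_notMem hy, hout y hy]
  have e4 : ∫⁻ y in B, nv O₁ Y y = ∫⁻ y in B, (d : ℝ≥0∞) := by
    refine lintegral_congr_ae ?_
    filter_upwards [hreg, hall] with y h1 h2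
    rw [← h1, h2]
    simp
  rw [e3, e4, setLIntegral_const]

end Pool.Agent.H41.VG
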