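import Pool.Agent.H95.VG.Targets5
import Pool.Agent.H41.VG.CC
import Pool.Agent.H73.VG.PIO
import Pool.Agent.H73.VG.PRD
import Pool.Agent.H90.VG.DIV

/-! module DEG of MP_6803f2_an: the number of preimages is constant -/

open MeasureTheory Set Filter Topology
open scoped ENNReal NNReal ContDiff ComplexConjugate

namespace Pool.Agent.H41.VG

open Pool.Agent.H95.VG Pool.Agent.H65.VG

lemma dzb_congr {n : ℕ} {g g' : V n → ℂ} {x : V n} (h : g =ᶠ[𝓝 x] g') (v : V n) :
    dzb g x v = dzb g' x v := by
  unfold dzb
  rw [h.fderiv_eq]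

/-- the Jacobian determinant is holomorphic -/
lemma differentiableOn_det {n : ℕ} {O : Set (V n)} {Y : V n → V n} (hO : IsOpen O)
    (hY : DifferentiableOn ℂ Y O) : DifferentiableOn ℂ (fun z => (jac Y z).det) O := by
  have h1 : ∀ i j, DifferentiableOn ℂ (fun z => jac Y z i j) O := by
    intro i j
    have h2 := (smo n (V n) O Y hO hY).2.2 (ek j)
    exact (differentiableOn_pi.1 h2) i
  simp only [Matrix.det_apply]
  refine DifferentiableOn.fun_sum fun σ _ => ?_
  refine DifferentiableOn.const_smul ?_ _
  have h3 : ∀ (s : Finset (Fin n)), DifferentiableOn ℂ (fun z => ∏ i ∈ s, jac Y z (σ i) i) O := by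
    intro s
    induction s using Finset.induction_on with
    | empty =>
      simp only [Finset.prod_empty]
      exact differentiableOn_const _
    | insert a s ha ih =>
      simp only [Finset.prod_insert ha]
      exact (h1 _ _).mul ih
  exact h3 _

/-- module DEG -/
theorem deg : T_DEG := by
  intro N U H P r δ hN hU hr hδ hsub hH hsph
  have hsub' : Metric.ball P r ⊆ U := Metric.ball_subset_closedBall.trans hsub
  have hHb : DifferentiableOn ℂ H (Metric.ball P r) := hH.mono hsub'
  have hcomp : IsCompact (Metric.closedBall P r) := isCompact_closedBall P r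
  have hdiv : T_DIV := Pool.Agent.H90.VG.div smo Pool.Agent.H73.VG.lin Pool.Agent.H73.VG.prd
  have hpio := Pool.Agent.H73.VG.pio smo N U H hU hH
  -- bound of the determinant
  obtain ⟨M₀, hM₀⟩ := hcomp.exists_bound_of_continuousOn ((continuousOn_det hU hH).mono hsub)
  have hbound : ∀ M : ℝ, (∀ Z ∈ Metric.ball P r, ‖(jac H Z).det‖ ^ 2 ≤ M) →
      ∫⁻ z in Metric.ball P r ∩ H ⁻¹' Metric.ball 0 δ, ENNReal.ofReal (‖(jac H z).det‖ ^ 2)
        ≤ ENNReal.ofReal M * volume (Metric.ball P r) := by
    intro M hM
    calc ∫⁻ z in Metric.ball P r ∩ H ⁻¹' Metric.ball 0 δ, ENNReal.ofReal (‖(jac H z).det‖ ^ 2)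
        ≤ ∫⁻ z in Metric.ball P r, ENNReal.ofReal (‖(jac H z).det‖ ^ 2) :=
          lintegral_mono_set inter_subset_left
      _ ≤ ∫⁻ z in Metric.ball P r, ENNReal.ofReal M :=
          setLIntegral_mono measurable_const fun z hz => ENNReal.ofReal_le_ofReal (hM z hz)
      _ = ENNReal.ofReal M * volume (Metric.ball P r) := by rw [setLIntegral_const]
  have hfin : ∫⁻ z in Metric.ball P r ∩ H ⁻¹' Metric.ball 0 δ,
      ENNReal.ofReal (‖(jac H z).det‖ ^ 2) < ⊤ := by
    refine (hbound (M₀ ^ 2) fun Z hZ => ?_).trans_lt ?_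
    · exact pow_le_pow_left₀ (norm_nonneg _) (hM₀ Z (Metric.ball_subset_closedBall hZ)) 2
    · exact ENNReal.mul_lt_top ENNReal.ofReal_lt_top measure_ball_lt_top
  obtain ⟨d, hd1, hd2⟩ := const_count hδ Metric.isOpen_ball hHb hfin (by
    intro p hp hpc hps k
    -- the compact set where the pull back lives
    set K : Set (V N) := Metric.closedBall P r ∩ H ⁻¹' tsupport p with hKd
    have hKc : IsClosed K :=
      (hH.continuousOn.mono hsub).preimage_isClosed_of_isClosed hcomp.isClosed (isClosed_tsupport p)
    have hKb : K ⊆ Metric.ball P r := by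
      rintro Z ⟨hZ1, hZ2⟩
      rcases (Metric.mem_closedBall.1 hZ1).lt_or_eq with h | h
      · exact h
      · exfalso
        have h1 := hsph Z h
        have h2 := hps hZ2
        rw [mem_ball_zero_iff] at h2
        linarith
    set G : V N → ℂ := (Metric.ball P r).indicator (fun x => p (H x)) with hG
    have hGK : ∀ Z, Z ∉ K → G Z = 0 := by
      intro Z hZ
      by_cases hb : Z ∈ Metric.ball P r
      · rw [hG, indicator_of_mem hb]
        by_contra hne
        exact hZ ⟨Metric.ball_subset_closedBall hb, subset_tsupport _ hne⟩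
      · rw [hG, indicator_of_notMem hb]
    have hGb : ∀ Z ∈ Metric.ball P r, G =ᶠ[𝓝 Z] fun x => p (H x) := by
      intro Z hZ
      filter_upwards [Metric.isOpen_ball.mem_nhds hZ] with y hy
      rw [hG, indicator_of_mem hy]
    have hG1 : ContDiff ℝ 1 G := by
      rw [contDiff_iff_contDiffAt]
      intro Z
      by_cases hb : Z ∈ Metric.ball P r
      · have h1 : ContDiffAt ℝ 1 H Z :=
          (((smo N (V N) U H hU hH).2.1).contDiffAt (hU.mem_nhds (hsub' hb))).of_le
            (by exact_mod_cast le_top)
        have h2 : ContDiffAt ℝ 1 (fun x => p (H x)) Z :=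
          (hp.contDiffAt.of_le (by exact_mod_cast le_top)).comp Z h1
        exact h2.congr_of_eventuallyEq (hGb Z hb)
      · have hZ : Z ∉ K := fun h => hb (hKb h)
        have h2 : G =ᶠ[𝓝 Z] fun _ => 0 := by
          filter_upwards [hKc.isOpen_compl.mem_nhds hZ] with y hy
          exact hGK y hy
        exact contDiffAt_const.congr_of_eventuallyEq h2
    have htK : tsupport G ⊆ K := by
      refine closure_minimal ?_ hKc
      intro Z hZ
      by_contra h
      exact hZ (hGK Z h)
    have hGc : HasCompactSupport G :=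
      hcomp.of_isClosed_subset (isClosed_tsupport G) (htK.trans inter_subset_left)
    have h0 := hdiv N (Metric.ball P r) (cf H k) (fun z => (jac H z).det) G Metric.isOpen_ball
      ((hpio k).1.mono hsub') (fun z hz => (hpio k).2 z (hsub' hz))
      (differentiableOn_det Metric.isOpen_ball hHb) hG1 hGc (htK.trans hKb)
    rw [← h0]
    refine setIntegral_congr_fun Metric.isOpen_ball.measurableSet fun z hz => ?_
    change (jac H z).det * dzb (fun x => p (H x)) z (cf H k z)
      = (jac H z).det * dzb G z (cf H k z)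
    rw [dzb_congr (hGb z hz)])
  refine ⟨d, hd1, fun M hM => ?_⟩
  rw [hd2]
  exact hbound M hM

end Pool.Agent.H41.VG
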