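import Pool.Agent.H95.VG.Targets5
import Pool.Agent.H65.VG.ARE
import Pool.Agent.H65.VG.SMO

/-! module GEN of MP_6803f2_an: parametric transversality -/

open MeasureTheory Set Filter Topology
open scoped ENNReal NNReal ContDiff ComplexConjugate

namespace Pool.Agent.H41.VG

open Pool.Agent.H95.VG Pool.Agent.H65.VG

/-- a measurable set all of whose slices in one family of directions are null is null -/
lemma null_of_slices {W C : Type*} [AddGroup W] [MeasurableSpace W] [MeasurableAdd₂ W]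
    [MeasurableSpace C] (μ : Measure W) [SFinite μ] [μ.IsAddRightInvariant] (ν : Measure C)
    [SFinite ν] (hν : ν univ ≠ 0) {ι : C → W} (hι : Measurable ι) {S : Set W}
    (hS : MeasurableSet S) (h : ∀ B, ν {c | B + ι c ∈ S} = 0) : μ S = 0 := by
  have hT : MeasurableSet {q : W × C | q.1 + ι q.2 ∈ S} :=
    (measurable_fst.add (hι.comp measurable_snd)) hS
  have h1 : (μ.prod ν) {q : W × C | q.1 + ι q.2 ∈ S} = 0 := by
    rw [Measure.prod_apply hT]
    have : ∀ B : W, ν (Prod.mk B ⁻¹' {q : W × C | q.1 + ι q.2 ∈ S}) = 0 := fun B => h B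
    rw [lintegral_congr this, lintegral_zero]
  have h2 : (μ.prod ν) {q : W × C | q.1 + ι q.2 ∈ S} = μ S * ν univ := by
    rw [Measure.prod_apply_symm hT]
    have : ∀ c : C, μ ((fun B => (B, c)) ⁻¹' {q : W × C | q.1 + ι q.2 ∈ S}) = μ S := fun c => by
      have h3 : ((fun B => (B, c)) ⁻¹' {q : W × C | q.1 + ι q.2 ∈ S}) = (fun B => B + ι c) ⁻¹' S := rfl
      rw [h3, measure_preimage_add_right]
    rw [lintegral_congr this, lintegral_const]
  rw [h2] at h1
  rcases mul_eq_zero.1 h1 with h3 | h3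
  · exact h3
  · exact absurd h3 hν

/-- projections of zero sets of continuous functions on open sets are Borel -/
lemma measurable_proj {A C F : Type*} [MetricSpace A] [ProperSpace A] [MeasurableSpace A]
    [BorelSpace A] [MetricSpace C] [ProperSpace C] [TopologicalSpace F] [T1Space F]
    {Ω : Set (A × C)} (hΩ : IsOpen Ω) {h : A × C → F} (hh : ContinuousOn h Ω) (z : F) :
    MeasurableSet {a | ∃ c, (a, c) ∈ Ω ∧ h (a, c) = z} := by
  obtain ⟨K, hK1, hK2, hK3, -⟩ := hΩ.exists_iUnion_isClosed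
  rcases isEmpty_or_nonempty (A × C) with hE | ⟨⟨p⟩⟩
  · have : {a | ∃ c, (a, c) ∈ Ω ∧ h (a, c) = z} = ∅ := by
      ext a
      constructor
      · rintro ⟨c, -⟩
        exact hE.elim (a, c)
      · rintro ⟨⟩
    rw [this]
    exact MeasurableSet.empty
  have hc : ∀ i j : ℕ, IsCompact ((K i ∩ h ⁻¹' {z}) ∩ Metric.closedBall p j) := by
    intro i j
    have h1 : IsClosed (K i ∩ h ⁻¹' {z}) :=
      (hh.mono (hK2 i)).preimage_isClosed_of_isClosed (hK1 i) isClosed_singleton
    rw [inter_comm]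
    exact (isCompact_closedBall p j).inter_right h1
  have he : {a | ∃ c, (a, c) ∈ Ω ∧ h (a, c) = z}
      = ⋃ i : ℕ, ⋃ j : ℕ, Prod.fst '' ((K i ∩ h ⁻¹' {z}) ∩ Metric.closedBall p j) := by
    ext a
    simp only [mem_iUnion, mem_image]
    constructor
    · rintro ⟨c, h1, h2⟩
      rw [← hK3, mem_iUnion] at h1
      obtain ⟨i, hi⟩ := h1
      obtain ⟨j, hj⟩ := exists_nat_ge (dist (a, c) p)
      exact ⟨i, j, (a, c), ⟨⟨hi, h2⟩, hj⟩, rfl⟩
    · rintro ⟨i, j, ⟨a', c⟩, ⟨⟨h1, h2⟩, -⟩, rfl⟩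
      exact ⟨c, hK2 i h1, h2⟩
  rw [he]
  exact MeasurableSet.iUnion fun i => MeasurableSet.iUnion fun j =>
    ((hc i j).image continuous_fst).isClosed.measurableSet

variable {N m k : ℕ}

/-- all the equations together -/
def E0 (G : V N → V m) (Y : V N → V k) (Z : V N) : Fin m ⊕ Fin k → ℂ := Sum.elim (G Z) (Y Z)

/-- the value -/
def Kw (w : V k) : Fin m ⊕ Fin k → ℂ := Sum.elim (fun _ => 0) (fun j => - w j)

lemma HB_eq (B : Fin N → Fin m ⊕ Fin k → ℂ) (G : V N → V m) (Y : V N → V k) (w : V k) (Z : V N) :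
    HB B G Y w Z = fun i => ∑ j, B i j * (E0 G Y Z j + Kw w j) := by
  funext i
  unfold HB E0 Kw
  rw [Fintype.sum_sum_type]
  simp [sub_eq_add_neg]

lemma diff_E0 {U : Set (V N)} {G : V N → V m} {Y : V N → V k} (hG : DifferentiableOn ℂ G U)
    (hY : DifferentiableOn ℂ Y U) : DifferentiableOn ℂ (E0 G Y) U := by
  refine differentiableOn_pi.2 fun j => ?_
  rcases j with j | j
  · exact differentiableOn_pi.1 hG j
  · exact differentiableOn_pi.1 hY j

lemma continuous_Kw : Continuous (Kw (m := m) (k := k)) := by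
  refine continuous_pi fun j => ?_
  rcases j with j | j
  · exact continuous_const
  · exact (continuous_apply j).neg

lemma jac_HB {U : Set (V N)} (hU : IsOpen U) {G : V N → V m} {Y : V N → V k}
    (hG : DifferentiableOn ℂ G U) (hY : DifferentiableOn ℂ Y U)
    (B : Fin N → Fin m ⊕ Fin k → ℂ) (w : V k) {Z : V N} (hZ : Z ∈ U) :
    jac (HB B G Y w) Z = Matrix.of fun i l => ∑ j, B i j * fderiv ℂ (E0 G Y) Z (ek l) j := by
  have h1 : HasFDerivAt (E0 G Y) (fderiv ℂ (E0 G Y) Z) Z :=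
    ((diff_E0 hG hY).differentiableAt (hU.mem_nhds hZ)).hasFDerivAt
  have h2 : ∀ j, HasFDerivAt (fun Z => E0 G Y Z j)
      ((ContinuousLinearMap.proj j : (Fin m ⊕ Fin k → ℂ) →L[ℂ] ℂ) ∘L (fderiv ℂ (E0 G Y) Z)) Z :=
    fun j => (hasFDerivAt_pi'.1 h1) j
  have h3 : HasFDerivAt (HB B G Y w) (ContinuousLinearMap.pi fun i => ∑ j,
      B i j • ((ContinuousLinearMap.proj j : (Fin m ⊕ Fin k → ℂ) →L[ℂ] ℂ) ∘L
        (fderiv ℂ (E0 G Y) Z))) Z := by
    have e : HB B G Y w = fun Z i => ∑ j, B i j * (E0 G Y Z j + Kw w j) := by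
      funext Z
      exact HB_eq B G Y w Z
    rw [e, hasFDerivAt_pi]
    intro i
    exact HasFDerivAt.fun_sum fun j _ => ((h2 j).add_const _).const_mul _
  ext i l
  unfold jac
  rw [h3.fderiv]
  simp

/-- the bad set with a nonvanishing equation `j0` -/
def Bad (U : Set (V N)) (G : V N → V m) (Y : V N → V k) (j0 : Fin m ⊕ Fin k) :
    Set ((Fin N → Fin m ⊕ Fin k → ℂ) × V k) :=
  {a | ∃ Z, (a, Z) ∈ {q : ((Fin N → Fin m ⊕ Fin k → ℂ) × V k) × V N |
      q.2 ∈ U ∧ E0 G Y q.2 j0 + Kw q.1.2 j0 ≠ 0} ∧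
    (fun q : ((Fin N → Fin m ⊕ Fin k → ℂ) × V k) × V N =>
      ((fun i => ∑ j, q.1.1 i j * (E0 G Y q.2 j + Kw q.1.2 j) : V N),
        (Matrix.of fun i l => ∑ j, q.1.1 i j * fderiv ℂ (E0 G Y) q.2 (ek l) j :
          Matrix (Fin N) (Fin N) ℂ).det)) (a, Z) = ((0 : V N), (0 : ℂ))}

lemma measurable_Bad {U : Set (V N)} (hU : IsOpen U) {G : V N → V m} {Y : V N → V k}
    (hG : DifferentiableOn ℂ G U) (hY : DifferentiableOn ℂ Y U) (j0 : Fin m ⊕ Fin k) :
    MeasurableSet (Bad U G Y j0) := by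
  have hE : ContinuousOn (E0 G Y) U := (diff_E0 hG hY).continuousOn
  have hD : ContinuousOn (fderiv ℂ (E0 G Y)) U := continuousOn_fderiv hU (diff_E0 hG hY)
  have hO1 : IsOpen {q : ((Fin N → Fin m ⊕ Fin k → ℂ) × V k) × V N | q.2 ∈ U} :=
    hU.preimage continuous_snd
  have hEq : ∀ j, ContinuousOn (fun q : ((Fin N → Fin m ⊕ Fin k → ℂ) × V k) × V N =>
      E0 G Y q.2 j + Kw q.1.2 j) {q | q.2 ∈ U} := by
    intro j
    refine ContinuousOn.add ?_ ?_
    · exact (continuous_apply j).comp_continuousOn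
        (hE.comp continuous_snd.continuousOn fun q hq => hq)
    · exact ((continuous_apply j).comp
        (continuous_Kw.comp (continuous_snd.comp continuous_fst))).continuousOn
  have hΩ : IsOpen {q : ((Fin N → Fin m ⊕ Fin k → ℂ) × V k) × V N |
      q.2 ∈ U ∧ E0 G Y q.2 j0 + Kw q.1.2 j0 ≠ 0} := by
    have := (hEq j0).isOpen_inter_preimage hO1 (isOpen_compl_singleton (x := (0 : ℂ)))
    exact this
  have hB : ∀ i j, Continuous (fun q : ((Fin N → Fin m ⊕ Fin k → ℂ) × V k) × V N => q.1.1 i j) :=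
    fun i j => (continuous_apply j).comp ((continuous_apply i).comp
      (continuous_fst.comp continuous_fst))
  have hcont : ContinuousOn (fun q : ((Fin N → Fin m ⊕ Fin k → ℂ) × V k) × V N =>
      ((fun i => ∑ j, q.1.1 i j * (E0 G Y q.2 j + Kw q.1.2 j) : V N),
        (Matrix.of fun i l => ∑ j, q.1.1 i j * fderiv ℂ (E0 G Y) q.2 (ek l) j :
          Matrix (Fin N) (Fin N) ℂ).det)) {q : ((Fin N → Fin m ⊕ Fin k → ℂ) × V k) × V N |
      q.2 ∈ U ∧ E0 G Y q.2 j0 + Kw q.1.2 j0 ≠ 0} := by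
    refine ContinuousOn.prodMk ?_ ?_
    · refine continuousOn_pi.2 fun i => ?_
      refine continuousOn_finsetSum _ fun j _ => ?_
      exact (hB i j).continuousOn.mul ((hEq j).mono fun q hq => hq.1)
    · have h1 : Continuous (fun A : Matrix (Fin N) (Fin N) ℂ => A.det) := continuous_id.matrix_det
      refine h1.comp_continuousOn ?_
      refine continuousOn_pi.2 fun i => continuousOn_pi.2 fun l => ?_
      have h3 : ContinuousOn (fun q : ((Fin N → Fin m ⊕ Fin k → ℂ) × V k) × V N =>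
          ∑ j, q.1.1 i j * fderiv ℂ (E0 G Y) q.2 (ek l) j)
          {q : ((Fin N → Fin m ⊕ Fin k → ℂ) × V k) × V N |
            q.2 ∈ U ∧ E0 G Y q.2 j0 + Kw q.1.2 j0 ≠ 0} := by
        refine continuousOn_finsetSum _ fun j _ => ?_
        refine (hB i j).continuousOn.mul ?_
        have h2 : ContinuousOn (fun Z => fderiv ℂ (E0 G Y) Z (ek l) j) U :=
          (continuous_apply j).comp_continuousOn (hD.clm_apply continuousOn_const)
        exact h2.comp continuous_snd.continuousOn fun q hq => hq.1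
      exact h3
  exact measurable_proj hΩ hcont _

lemma not_Gnr {U : Set (V N)} (hU : IsOpen U) {G : V N → V m} {Y : V N → V k}
    (hG : DifferentiableOn ℂ G U) (hY : DifferentiableOn ℂ Y U) (B : Fin N → Fin m ⊕ Fin k → ℂ)
    (w : V k) (h : ∀ j0, (B, w) ∉ Bad U G Y j0) : Gnr U B G Y w := by
  intro Z hZ hne h0 hdet
  have hj : ∃ j0, E0 G Y Z j0 + Kw w j0 ≠ 0 := by
    by_contra hc
    push Not at hc
    rcases hne with h1 | h1
    · apply h1
      funext j
      have := hc (Sum.inl j)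
      simpa [E0, Kw] using this
    · apply h1
      funext j
      have := hc (Sum.inr j)
      simp only [E0, Kw, Sum.elim_inr] at this
      linear_combination this
  obtain ⟨j0, hj0⟩ := hj
  refine h j0 ⟨Z, ⟨hZ, hj0⟩, ?_⟩
  refine Prod.ext ?_ ?_
  · change (fun i => ∑ j, B i j * (E0 G Y Z j + Kw w j)) = (0 : V N)
    rw [← HB_eq, h0]
  · change (Matrix.of fun i l => ∑ j, B i j * fderiv ℂ (E0 G Y) Z (ek l) j).det = 0
    rw [← jac_HB hU hG hY B w hZ, hdet]

/-- the slices of the bad set are null -/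
lemma slice_Bad {U : Set (V N)} (hU : IsOpen U) {G : V N → V m} {Y : V N → V k}
    (hG : DifferentiableOn ℂ G U) (hY : DifferentiableOn ℂ Y U) (j0 : Fin m ⊕ Fin k)
    (B : Fin N → Fin m ⊕ Fin k → ℂ) (w : V k) :
    volume {c : V N | (B + (fun i j => if j = j0 then c i else 0), w) ∈ Bad U G Y j0} = 0 := by
  set e : V N → ℂ := fun Z => E0 G Y Z j0 + Kw w j0 with he
  set U0 : Set (V N) := {Z | Z ∈ U ∧ e Z ≠ 0} with hU0
  have hE := diff_E0 hG hY
  have hed : DifferentiableOn ℂ e U := ((differentiableOn_pi.1 hE) j0).add_const _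
  have hU0o : IsOpen U0 := hed.continuousOn.isOpen_inter_preimage hU
    (isOpen_compl_singleton (x := (0 : ℂ)))
  set Ψ : V N → V N := fun Z i => - (∑ j, B i j * (E0 G Y Z j + Kw w j)) * (e Z)⁻¹ with hΨ
  have hΨd : DifferentiableOn ℂ Ψ U0 := by
    refine differentiableOn_pi.2 fun i => ?_
    refine DifferentiableOn.mul ?_ ((hed.mono fun Z (hZ : Z ∈ U0) => hZ.1).inv
      fun Z (hZ : Z ∈ U0) => hZ.2)
    refine DifferentiableOn.neg ?_
    refine DifferentiableOn.fun_sum fun j _ => ?_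
    exact ((((differentiableOn_pi.1 hE) j).mono fun Z (hZ : Z ∈ U0) => hZ.1).add_const _).const_mul _
  have hnull := (are N U0 U0 Ψ (fun _ => 1) hU0o hΨd hU0o.measurableSet (subset_refl _)
    measurable_const).2.2
  refine measure_mono_null ?_ hnull
  rintro c ⟨Z, ⟨hZ1, hZ2⟩, hZ3⟩
  have hZ0 : Z ∈ U0 := ⟨hZ1, hZ2⟩
  set B' : Fin N → Fin m ⊕ Fin k → ℂ := B + (fun i j => if j = j0 then c i else 0) with hB'
  have h1 : (fun i => ∑ j, B' i j * (E0 G Y Z j + Kw w j)) = (0 : V N) := congrArg Prod.fst hZ3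
  have h2 : (Matrix.of fun i l => ∑ j, B' i j * fderiv ℂ (E0 G Y) Z (ek l) j).det = 0 :=
    congrArg Prod.snd hZ3
  rw [← jac_HB hU hG hY B' w hZ1] at h2
  -- the formula near the zero
  have hform : ∀ Z' ∈ U0, HB B' G Y w Z' = e Z' • (c - Ψ Z') := by
    intro Z' hZ'
    rw [HB_eq]
    funext i
    have e1 : ∑ j, B' i j * (E0 G Y Z' j + Kw w j)
        = ∑ j, B i j * (E0 G Y Z' j + Kw w j) + c i * e Z' := by
      have : ∀ j, B' i j * (E0 G Y Z' j + Kw w j) = B i j * (E0 G Y Z' j + Kw w j)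
          + (if j = j0 then c i * e Z' else 0) := by
        intro j
        simp only [hB', Pi.add_apply]
        split_ifs with hj
        · subst hj
          ring
        · ring
      rw [Finset.sum_congr rfl fun j _ => this j, Finset.sum_add_distrib]
      simp
    rw [e1]
    simp only [Pi.smul_apply, Pi.sub_apply, smul_eq_mul, hΨ]
    have := hZ'.2
    field_simp
    ring
  have hc0 : c = Ψ Z := by
    have h3 := hform Z hZ0
    rw [HB_eq, h1] at h3
    have h4 := (smul_eq_zero.1 h3.symm).resolve_left hZ2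
    exact sub_eq_zero.1 h4
  refine ⟨Z, ⟨hZ0, ?_⟩, hc0.symm⟩
  have hf : HasFDerivAt (fun Z' => e Z' • (c - Ψ Z')) ((- e Z) • fderiv ℂ Ψ Z) Z := by
    have h5 := (hed.differentiableAt (hU.mem_nhds hZ1)).hasFDerivAt.smul
      (((hΨd.differentiableAt (hU0o.mem_nhds hZ0)).hasFDerivAt).const_sub c)
    refine h5.congr_fderiv ?_
    rw [hc0]
    ext v i
    simp
  have hf2 : fderiv ℂ (HB B' G Y w) Z = (- e Z) • fderiv ℂ Ψ Z := by
    rw [← hf.fderiv]
    refine Filter.EventuallyEq.fderiv_eq ?_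
    filter_upwards [hU0o.mem_nhds hZ0] with Z' hZ'
    exact hform Z' hZ'
  have hj : jac (HB B' G Y w) Z = (- e Z) • jac Ψ Z := by
    ext i l
    unfold jac
    rw [hf2]
    simp
  rw [hj, Matrix.det_smul] at h2
  rcases mul_eq_zero.1 h2 with h6 | h6
  · exfalso
    exact (pow_ne_zero _ (neg_ne_zero.2 hZ2)) h6
  · exact h6

lemma section_null {U : Set (V N)} (hU : IsOpen U) {G : V N → V m} {Y : V N → V k}
    (hG : DifferentiableOn ℂ G U) (hY : DifferentiableOn ℂ Y U) (j0 : Fin m ⊕ Fin k) (w : V k) :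
    volume {B : Fin N → Fin m ⊕ Fin k → ℂ | (B, w) ∈ Bad U G Y j0} = 0 := by
  have hm : MeasurableSet {B : Fin N → Fin m ⊕ Fin k → ℂ | (B, w) ∈ Bad U G Y j0} :=
    measurable_prodMk_right (measurable_Bad hU hG hY j0)
  have hι : Measurable (fun (c : V N) (i : Fin N) (j : Fin m ⊕ Fin k) =>
      if j = j0 then c i else (0 : ℂ)) := by
    refine measurable_pi_lambda _ fun i => measurable_pi_lambda _ fun j => ?_
    split_ifs
    · exact measurable_pi_apply i
    · exact measurable_const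
  refine null_of_slices volume (volume : Measure (V N)) ?_ hι hm fun B => slice_Bad hU hG hY j0 B w
  rw [Ne, Measure.measure_univ_eq_zero]
  exact NeZero.ne _

/-- module GEN -/
theorem gen : T_GEN := by
  intro N m k U G Y hU hG hY
  constructor
  · intro w
    have h1 : ∀ᵐ B : Fin N → Fin m ⊕ Fin k → ℂ, ∀ j0, (B, w) ∉ Bad U G Y j0 := by
      rw [ae_all_iff]
      intro j0
      exact measure_eq_zero_iff_ae_notMem.1 (section_null hU hG hY j0 w)
    filter_upwards [h1] with B hB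
    exact not_Gnr hU hG hY B w hB
  · have h1 : ∀ᵐ B : Fin N → Fin m ⊕ Fin k → ℂ, ∀ j0, ∀ᵐ w : V k, (B, w) ∉ Bad U G Y j0 := by
      rw [ae_all_iff]
      intro j0
      have h2 : ((volume : Measure (Fin N → Fin m ⊕ Fin k → ℂ)).prod (volume : Measure (V k)))
          (Bad U G Y j0) = 0 := by
        rw [Measure.prod_apply_symm (measurable_Bad hU hG hY j0)]
        have : ∀ w : V k, (volume : Measure (Fin N → Fin m ⊕ Fin k → ℂ))
            ((fun B => (B, w)) ⁻¹' Bad U G Y j0) = 0 := fun w => section_null hU hG hY j0 w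
        rw [lintegral_congr this, lintegral_zero]
      exact Measure.ae_ae_of_ae_prod (measure_eq_zero_iff_ae_notMem.1 h2)
    filter_upwards [h1] with B hB
    filter_upwards [ae_all_iff.2 hB] with w hw
    exact not_Gnr hU hG hY B w hw

end Pool.Agent.H41.VG
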