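import Pool.Agent.H95.VG.Targets5
import Pool.Agent.H41.VG.DEG
import Pool.Agent.H78.VG.MOP

/-! module LCC of MP_6803f2_an: constancy of partial fibre counts -/

open MeasureTheory Set Filter Topology
open scoped ENNReal NNReal ContDiff ComplexConjugate

namespace Pool.Agent.H41.VG

open Pool.Agent.H95.VG Pool.Agent.H65.VG

lemma continuousOn_dzb_field {n : ℕ} {O : Set (V n)} (hO : IsOpen O) {g : V n → ℂ} {E : V n → V n}
    (hg : ContDiffOn ℝ 1 g O) (hE : ContinuousOn E O) :
    ContinuousOn (fun z => dzb g z (E z)) O := by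
  have h1 : ContinuousOn (fun z => fderiv ℝ g z) O :=
    hg.continuousOn_fderiv_of_isOpen hO (by norm_num)
  unfold dzb
  refine ContinuousOn.div_const (ContinuousOn.add (h1.clm_apply hE) ?_) 2
  exact continuousOn_const.mul (h1.clm_apply (hE.const_smul Complex.I))

lemma meas_inter' {n m : ℕ} {O : Set (V n)} {B : Set (V m)} {Y : V n → V m} (hO : IsOpen O)
    (hY : ContinuousOn Y O) (hB : MeasurableSet B) : MeasurableSet (O ∩ Y ⁻¹' B) := by
  have h1 : Measurable (fun z : O => Y z) :=
    (continuousOn_iff_continuous_domRestrict.1 hY).measurable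
  have h2 : O ∩ Y ⁻¹' B = Subtype.val '' ((fun z : O => Y z) ⁻¹' B) := by
    ext z
    constructor
    · rintro ⟨hz, hz2⟩
      exact ⟨⟨z, hz⟩, hz2, rfl⟩
    · rintro ⟨⟨z, hz⟩, hz2, rfl⟩
      exact ⟨hz, hz2⟩
  rw [h2]
  exact hO.measurableSet.subtype_image (h1 hB)

lemma append_closedBall {n : ℕ} {z y z₀ y₀ : V n} {r : ℝ}
    (h : Fin.append z y ∈ Metric.closedBall (Fin.append z₀ y₀) r) :
    z ∈ Metric.closedBall z₀ r ∧ y ∈ Metric.closedBall y₀ r := by
  have hr : 0 ≤ r := dist_nonneg.trans (Metric.mem_closedBall.1 h)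
  simp only [Metric.mem_closedBall, dist_pi_le_iff hr] at h ⊢
  refine ⟨fun i => ?_, fun i => ?_⟩
  · simpa using h (Fin.castAdd n i)
  · have := h (Fin.natAdd n i)
    rwa [Fin.append_right, Fin.append_right] at this

lemma continuousOn_YY {n : ℕ} {S : Set (V (n + n))} {l : V (n + n) → V n} (hl : ContinuousOn l S)
    (P : V (n + n)) (Φ : Fin n → Fin n ⊕ Fin n) (ε : ℝ) : ContinuousOn (YY l P Φ ε) S := by
  unfold YY
  refine continuousOn_pi.2 fun i => ?_
  refine ContinuousOn.add ((continuous_apply i).comp_continuousOn hl) ?_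
  exact (continuous_const.mul ((continuous_apply _).sub continuous_const)).continuousOn

/-- module LCC -/
theorem lcc (hMOP : T_MOP) (hJAC : T_JAC) (hYMX : T_YMX) (hS1M : T_S1M) (hYFO : T_YFO) :
    T_LCC := by
  intro n X _ _ ι _ A f I D hn hMro a z₀ y₀ r m G l hy₀ hL r' ε₀ δ₁ D₀ hF σ s Φ j hj hσ
  obtain ⟨hr', hr'r, hε₀, hε₀1, hδ₁⟩ := hF.pos
  have hej0 : 0 ≤ ej j := by
    unfold ej
    positivity
  set P : V (n + n) := Fin.append z₀ y₀ with hP
  set O : Set (V n) := Ug A f I D a P r' with hOd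
  set F : V n → V n := FF A f a with hFd
  set T : V n → V n := fun z => YY l P Φ (ej j) (Zf F z) with hT
  have hMo := hMOP n X ι A f I D hMro
  have hO : IsOpen O := hMo.2.2.1 a P r'
  have hFdiff : DifferentiableOn ℂ F O := (hMro.hol a).mono fun z hz => ⟨hz.1, hz.2.1⟩
  have hball : Metric.ball P r' ⊆ Metric.ball P r := Metric.ball_subset_ball hr'r.le
  have hTdiff : DifferentiableOn ℂ T O := fun z hz =>
    (hJAC n F z P r l (hFdiff.differentiableAt (hO.mem_nhds hz)) hL.lhol (hball hz.2.2)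
      Φ (ej j)).1.differentiableWithinAt
  have hZc : ContinuousOn (Zf F) O := Pool.Agent.H78.VG.continuousOn_Zf hFdiff.continuousOn
  have hcfc : ∀ k, ContinuousOn (cf T k) O := fun k =>
    ((Pool.Agent.H73.VG.pio smo n O T hO hTdiff) k).1.continuousOn
  -- the piece
  set Os : Set (V n) := {z | z ∈ O ∧ σ z = s} with hOs
  have hOsO : Os ⊆ O := fun z hz => hz.1
  have hOso : IsOpen Os := by
    rw [isOpen_iff_mem_nhds]
    rintro z ⟨hz1, hz2⟩
    filter_upwards [hO.mem_nhds hz1, hσ z hz1] with z' h1 h2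
    exact ⟨h1, by rw [h2, hz2]⟩
  have hTs : DifferentiableOn ℂ T Os := hTdiff.mono hOsO
  -- finiteness
  have hcntb : ∀ᵐ w ∂(volume.restrict (Metric.ball (0 : V n) δ₁)), nv Os T w ≤ D₀ := by
    filter_upwards [hF.cnt Φ j hj] with w hw
    rw [nv_eq]
    have h1 : {z | z ∈ Os ∧ T z = w ∧ (jac T z).det ≠ 0}.encard
        ≤ {z | z ∈ Ug A f I D a P r' ∧ YY l P Φ (ej j) (Zf (FF A f a) z) = w}.encard :=
      encard_le_encard fun z hz => ⟨hz.1.1, hz.2.1⟩
    have h2 := h1.trans hw
    have h3 : (({z | z ∈ Os ∧ T z = w ∧ (jac T z).det ≠ 0}.encard : ℕ∞) : ℝ≥0∞)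
        ≤ ((D₀ : ℕ∞) : ℝ≥0∞) := ENat.toENNReal_le.2 h2
    simpa using h3
  have hfin : ∫⁻ z in Os ∩ T ⁻¹' Metric.ball 0 δ₁, ENNReal.ofReal (‖(jac T z).det‖ ^ 2) < ⊤ := by
    have hmeas := meas_inter hOso hTs (Metric.isOpen_ball (x := (0 : V n)) (ε := δ₁)).measurableSet
    rw [lintegral_nv hOso hTs hmeas inter_subset_left]
    have e1 : ∫⁻ y, nv (Os ∩ T ⁻¹' Metric.ball 0 δ₁) T y
        = ∫⁻ y in Metric.ball (0 : V n) δ₁, nv Os T y := by
      rw [← lintegral_indicator Metric.isOpen_ball.measurableSet]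
      exact lintegral_congr fun y => nv_inter _ _ _ y
    rw [e1]
    refine (lintegral_mono_ae hcntb).trans_lt ?_
    rw [setLIntegral_const]
    exact ENNReal.mul_lt_top (ENNReal.natCast_lt_top D₀) measure_ball_lt_top
  obtain ⟨d, hd, -⟩ := const_count hδ₁ hOso hTs hfin (by
    intro p hp hpc hps k
    have hp1 : ContDiff ℝ 1 p := hp.of_le (by exact_mod_cast le_top)
    -- the compact set on the graph
    set K' : Set (V (n + n)) := Metric.closedBall P r' ∩ G ⁻¹' {0} ∩
      (YY l P Φ (ej j)) ⁻¹' tsupport p with hK'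
    have hcb : Metric.closedBall P r' ⊆ Metric.ball P r := Metric.closedBall_subset_ball hr'r
    have hc1 : IsClosed (Metric.closedBall P r' ∩ G ⁻¹' {0}) :=
      (hL.ghol.continuousOn.mono hcb).preimage_isClosed_of_isClosed
        Metric.isClosed_closedBall isClosed_singleton
    have hc2 : IsClosed K' :=
      ((continuousOn_YY (hL.lhol.continuousOn.mono hcb) P Φ (ej j)).mono
        inter_subset_left).preimage_isClosed_of_isClosed hc1 (isClosed_tsupport p)
    have hKb : K' ⊆ Metric.ball P r' := by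
      rintro Z ⟨⟨hZ1, hZ2⟩, hZ3⟩
      rcases (Metric.mem_closedBall.1 hZ1).lt_or_eq with h | h
      · exact h
      · exfalso
        have h1 := hF.prp Φ (ej j) hej0 hj Z h hZ2
        have h2 := hps hZ3
        rw [mem_ball_zero_iff] at h2
        linarith
    obtain ⟨r'', hr'', hKr⟩ := exists_lt_subset_ball hc2 hKb
    have hin : ∀ z ∈ O, T z ∈ tsupport p → Zf F z ∈ Metric.closedBall P r'' := by
      intro z hz hzp
      refine Metric.ball_subset_closedBall (hKr ⟨⟨Metric.ball_subset_closedBall hz.2.2, ?_⟩, hzp⟩)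
      exact (hL.gr z (F z) (hball hz.2.2) hz.1.2).2 ⟨hz.2.1, rfl⟩
    -- the test function
    set g : V n → ℂ := Os.indicator (fun x => p (T x)) with hg
    have hTsm : ContDiffOn ℝ 1 T O :=
      ((smo n (V n) O T hO hTdiff).2.1).of_le (by exact_mod_cast le_top)
    have hgs : ∀ z ∈ Os, g =ᶠ[𝓝 z] fun x => p (T x) := by
      intro z hz
      filter_upwards [hOso.mem_nhds hz] with z' hz'
      rw [hg, indicator_of_mem hz']
    have hgn : ∀ z ∈ O, σ z ≠ s → g =ᶠ[𝓝 z] fun _ => 0 := by
      intro z hz hne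
      filter_upwards [hσ z hz] with z' hz'
      rw [hg, indicator_of_notMem]
      rintro ⟨_, h⟩
      exact hne (by rw [← hz', h])
    have hg1 : ContDiffOn ℝ 1 g O := by
      intro z hz
      apply ContDiffAt.contDiffWithinAt
      by_cases h : σ z = s
      · have h2 : ContDiffAt ℝ 1 (fun x => p (T x)) z :=
          hp1.contDiffAt.comp z (hTsm.contDiffAt (hO.mem_nhds hz))
        exact h2.congr_of_eventuallyEq (hgs z ⟨hz, h⟩)
      · exact contDiffAt_const.congr_of_eventuallyEq (hgn z hz h)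
    obtain ⟨Cp, hCp⟩ := hpc.exists_bound_of_continuous hp.continuous
    have hCp0 : 0 ≤ Cp := (norm_nonneg _).trans (hCp 0)
    set b : V n → ℂ := fun z => (jac T z).det with hb
    have hbd : DifferentiableOn ℂ b O := differentiableOn_det hO hTdiff
    -- finiteness over the compact piece
    set S : Set (V n) := O ∩ {z | Zf F z ∈ Metric.closedBall P r''} with hS
    have hSm : MeasurableSet S :=
      meas_inter' hO hZc (Metric.isClosed_closedBall (x := P) (ε := r'')).measurableSet
    obtain ⟨C, hC0, hC⟩ := hYMX n P r r' l hL.lhol hr'r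
    have hSC : S ⊆ (Metric.closedBall z₀ r'' \ I) ∩ Cb A f a (5 / 2) := by
      rintro z ⟨hz1, hz2⟩
      obtain ⟨h1, h2⟩ := append_closedBall hz2
      refine ⟨⟨h1, hz1.1.2⟩, hz1.2.1, ?_⟩
      rw [Metric.mem_closedBall] at h2 hy₀ ⊢
      have h3 := dist_triangle (A.φ a (f z)) y₀ 0
      have h4 : dist (A.φ a (f z)) y₀ ≤ r'' := h2
      have := hL.rle
      linarith
    have hKD : Metric.closedBall z₀ r'' ⊆ D := by
      intro z hz
      refine (hL.dom z y₀ ?_).1
      have hr0 : 0 < r := hL.rpos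
      rw [Pool.Agent.H78.VG.append_mem_ball hr0]
      refine ⟨?_, Metric.mem_ball_self hr0⟩
      rw [Metric.mem_closedBall] at hz
      rw [Metric.mem_ball]
      linarith
    have hSfin : ∫⁻ z in S, ENNReal.ofReal (‖b z‖ ^ 2) < ⊤ := by
      have h1 : ∫⁻ z in S, ENNReal.ofReal (‖b z‖ ^ 2)
          ≤ ∫⁻ z in S, ENNReal.ofReal C * ENNReal.ofReal (Dm F z) := by
        refine setLIntegral_mono' hSm fun z hz => ?_
        rw [← ENNReal.ofReal_mul hC0]
        refine ENNReal.ofReal_le_ofReal ?_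
        exact ((hC F z (hFdiff.differentiableAt (hO.mem_nhds hz.1))
          (Metric.closedBall_subset_closedBall hr''.le hz.2) Φ (ej j) hej0 (hj.trans hε₀1)
          ⟨0, hn⟩).1)
      refine h1.trans_lt ?_
      rw [lintegral_const_mul' _ _ ENNReal.ofReal_ne_top]
      refine ENNReal.mul_lt_top ENNReal.ofReal_lt_top ?_
      exact (lintegral_mono_set hSC).trans_lt
        (hS1M n X ι A f I D hn hMro _ hKD (isCompact_closedBall _ _) a)
    -- the integrand
    have hCHR : T_CHR := chr Pool.Agent.H73.VG.lin Pool.Agent.H73.VG.lvm (chn smo)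
    have hval : ∀ z ∈ Os, b z * dzb g z (cf T k z)
        = ((‖b z‖ ^ 2 : ℝ) : ℂ) * dzb p (T z) (ek k) := by
      intro z hz
      rw [dzb_congr (hgs z hz)]
      have hc := ((hCHR n O T hO hTdiff z hz.1 k).2.1 p (hp1.differentiable (by norm_num) _)).2
      rw [hc, ← mul_assoc, hb, Complex.mul_conj, Complex.normSq_eq_norm_sq]
    have hval0 : ∀ z ∈ O, z ∉ Os → b z * dzb g z (cf T k z) = 0 := by
      intro z hz hzs
      rw [dzb_congr (hgn z hz fun h => hzs ⟨hz, h⟩)]
      unfold dzb
      simp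
    have hval1 : ∀ z ∈ O \ S, b z * dzb g z (cf T k z) = 0 := by
      intro z hz
      by_cases hzs : z ∈ Os
      · rw [hval z hzs, dzb_zero_of_notMem (fun h => hz.2 ⟨hz.1, hin z hz.1 h⟩), mul_zero]
      · exact hval0 z hz.1 hzs
    have hcd : HasCompactSupport (fun y => dzb p y (ek k)) := by
      refine HasCompactSupport.intro hpc fun y hy => dzb_zero_of_notMem hy _
    obtain ⟨Cd, hCd⟩ := hcd.exists_bound_of_continuous (continuous_dzb hp1 (ek k))
    have hCd0 : 0 ≤ Cd := (norm_nonneg _).trans (hCd 0)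
    have hcont : ContinuousOn (fun z => b z * dzb g z (cf T k z)) O :=
      hbd.continuousOn.mul (continuousOn_dzb_field hO hg1 (hcfc k))
    have hb2 : IntegrableOn (fun z => ‖b z‖ ^ 2) S := by
      refine ⟨((hbd.continuousOn.norm.pow 2).mono inter_subset_left).aestronglyMeasurable hSm, ?_⟩
      rw [hasFiniteIntegral_iff_ofReal (Eventually.of_forall fun z => by positivity)]
      exact hSfin
    have hintS : IntegrableOn (fun z => b z * dzb g z (cf T k z)) S := by
      refine Integrable.mono' (hb2.mul_const Cd)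
        ((hcont.mono inter_subset_left).aestronglyMeasurable hSm) ?_
      filter_upwards [ae_restrict_mem hSm] with z hz
      by_cases hzs : z ∈ Os
      · rw [hval z hzs, norm_mul, Complex.norm_real, Real.norm_of_nonneg (by positivity)]
        exact mul_le_mul_of_nonneg_left (hCd _) (by positivity)
      · rw [hval0 z hz.1 hzs, norm_zero]
        positivity
    have hintO : IntegrableOn (fun z => b z * dzb g z (cf T k z)) O :=
      hintS.of_forall_sdiff_eq_zero hO.measurableSet hval1
    have hzero := hYFO n X ι A f I D hn hMro a z₀ y₀ r m G l hy₀ hL r' r'' (ej j) Φ k g b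
      hr'r hr'' hej0 (hj.trans hε₀1) hg1 (by
        intro z hz hne
        by_cases hzs : z ∈ Os
        · rw [hg, indicator_of_mem hzs] at hne
          exact hin z hz (subset_tsupport _ hne)
        · rw [hg, indicator_of_notMem hzs] at hne
          exact absurd rfl hne) ⟨Cp, fun z _ => by
        by_cases hzs : z ∈ Os
        · rw [hg, indicator_of_mem hzs]
          exact hCp _
        · rw [hg, indicator_of_notMem hzs, norm_zero]
          exact hCp0⟩ hbd hSfin hintO
    rw [← hzero]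
    rw [setIntegral_eq_of_subset_of_forall_sdiff_eq_zero hO.measurableSet hOsO
      (fun z hz => hval0 z hz.1 hz.2)]
    refine setIntegral_congr_fun hOso.measurableSet fun z hz => ?_
    change (jac T z).det * dzb (fun x => p (T x)) z (cf T k z)
      = (jac T z).det * dzb g z (cf T k z)
    rw [dzb_congr (hgs z hz)])
  refine ⟨d, ?_⟩
  filter_upwards [hd] with w hw
  rw [← hw]
  congr 1
  ext z
  constructor
  · rintro ⟨h1, h2, h3⟩
    exact ⟨⟨h1, h2⟩, h3⟩
  · rintro ⟨⟨h1, h2⟩, h3⟩
    exact ⟨h1, h2, h3⟩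

end Pool.Agent.H41.VG
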