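import Pool.Agent.H95.VG.Targets1
import Pool.Agent.H95.VG.Targets2

/-! module LGP of MP_6803f2_an -/

open MeasureTheory Set Filter Topology
open scoped ENNReal NNReal ContDiff ComplexConjugate

namespace Pool.Agent.H41.VG

open Pool.Agent.H95.VG

variable {n : ℕ}

lemma contDiff_eval (P : MvPolynomial (Fin n) ℂ) :
    ContDiff ℂ ∞ (fun z : V n => MvPolynomial.eval z P) := by
  induction P using MvPolynomial.induction_on with
  | C a => simpa using contDiff_const
  | add p q hp hq => simpa using hp.add hq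
  | mul_X p i hp =>
    have hi : ContDiff ℂ ∞ (fun z : V n => z i) :=
      (ContinuousLinearMap.proj (R := ℂ) (φ := fun _ : Fin n => ℂ) i).contDiff
    simpa using hp.mul hi

/-- the function `‖q‖ ^ 2 + c` -/
noncomputable def nq (q : V n → ℂ) (c : ℝ) (z : V n) : ℝ := ‖q z‖ ^ 2 + c

lemma nq_re (q : V n → ℂ) (c : ℝ) (z : V n) :
    nq q c z = (q z).re * (q z).re + (q z).im * (q z).im + c := by
  unfold nq
  rw [← Complex.normSq_eq_norm_sq, Complex.normSq_apply]

lemma hasFDerivAt_re {q : V n → ℂ} {q' : V n →L[ℂ] ℂ} {z : V n} (h : HasFDerivAt q q' z) :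
    HasFDerivAt (fun x => (q x).re) (Complex.reCLM.comp (q'.restrictScalars ℝ)) z :=
  Complex.reCLM.hasFDerivAt.comp z (h.restrictScalars ℝ)

lemma hasFDerivAt_im {q : V n → ℂ} {q' : V n →L[ℂ] ℂ} {z : V n} (h : HasFDerivAt q q' z) :
    HasFDerivAt (fun x => (q x).im) (Complex.imCLM.comp (q'.restrictScalars ℝ)) z :=
  Complex.imCLM.hasFDerivAt.comp z (h.restrictScalars ℝ)

lemma fderiv_nq {q : V n → ℂ} {z : V n} (hq : DifferentiableAt ℂ q z) (c : ℝ) (v : V n) :
    fderiv ℝ (nq q c) z v
      = 2 * ((q z).re * (fderiv ℂ q z v).re + (q z).im * (fderiv ℂ q z v).im) := by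
  have e : nq q c = fun z => (q z).re * (q z).re + (q z).im * (q z).im + c := by
    funext z; exact nq_re q c z
  have h1 := hasFDerivAt_re hq.hasFDerivAt
  have h2 := hasFDerivAt_im hq.hasFDerivAt
  have h3 := ((h1.mul h1).add (h2.mul h2)).add_const c
  rw [e]
  have h4 : HasFDerivAt (fun z => (q z).re * (q z).re + (q z).im * (q z).im + c) _ z := h3
  rw [h4.fderiv]
  simp only [add_apply, smul_apply, ContinuousLinearMap.comp_apply, smul_eq_mul,
    ContinuousLinearMap.coe_restrictScalars', Complex.reCLM_apply, Complex.imCLM_apply]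
  ring

lemma dr_nq {q : V n → ℂ} {z : V n} (hq : DifferentiableAt ℂ q z) (c : ℝ) (v : V n) :
    dr (nq q c) z v = conj (q z) * fderiv ℂ q z v := by
  unfold dr
  rw [fderiv_nq hq, fderiv_nq hq, map_smul]
  apply Complex.ext <;> simp <;> ring

lemma lev_nq {q : V n → ℂ} (hq : ContDiff ℂ ∞ q) (c : ℝ) (z v : V n) :
    lev (nq q c) z v = ‖fderiv ℂ q z v‖ ^ 2 := by
  have hd : Differentiable ℂ q := hq.differentiable (by simp)
  have hd2 : ∀ w, Differentiable ℂ (fun x => fderiv ℂ q x w) := fun w =>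
    ((hq.fderiv_right (m := ∞) (by simp)).clm_apply contDiff_const).differentiable (by simp)
  have h1 : ∀ w : V n, fderiv ℝ (fun x => fderiv ℝ (nq q c) x w) z w
      = 2 * ((fderiv ℂ q z w).re * (fderiv ℂ q z w).re
          + (q z).re * (fderiv ℂ (fun x => fderiv ℂ q x w) z w).re
          + (fderiv ℂ q z w).im * (fderiv ℂ q z w).im
          + (q z).im * (fderiv ℂ (fun x => fderiv ℂ q x w) z w).im) := by
    intro w
    have e : (fun x => fderiv ℝ (nq q c) x w)
        = fun x => 2 * ((q x).re * (fderiv ℂ q x w).re + (q x).im * (fderiv ℂ q x w).im) := by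
      funext x
      exact fderiv_nq (hd x) c w
    have a1 := hasFDerivAt_re (hd z).hasFDerivAt
    have a2 := hasFDerivAt_im (hd z).hasFDerivAt
    have b1 := hasFDerivAt_re (hd2 w z).hasFDerivAt
    have b2 := hasFDerivAt_im (hd2 w z).hasFDerivAt
    have h3 := ((a1.mul b1).add (a2.mul b2)).const_mul 2
    have h4 : HasFDerivAt (fun x => 2 * ((q x).re * (fderiv ℂ q x w).re
        + (q x).im * (fderiv ℂ q x w).im)) _ z := h3
    rw [e, h4.fderiv]
    simp only [add_apply, smul_apply, ContinuousLinearMap.comp_apply, smul_eq_mul,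
      ContinuousLinearMap.coe_restrictScalars', Complex.reCLM_apply, Complex.imCLM_apply]
    ring
  have key : fderiv ℂ (fun x => fderiv ℂ q x (Complex.I • v)) z (Complex.I • v)
      = - fderiv ℂ (fun x => fderiv ℂ q x v) z v := by
    have e1 : (fun x => fderiv ℂ q x (Complex.I • v))
        = fun x => Complex.I • fderiv ℂ q x v := by
      funext x; rw [map_smul]
    rw [e1, fderiv_fun_const_smul (hd2 v z), smul_apply, map_smul, smul_smul]
    simp
  unfold lev
  rw [h1, h1, key, map_smul, ← Complex.normSq_eq_norm_sq, Complex.normSq_apply]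
  simp
  ring

/-- module LGP -/
theorem lgp (h2 : T_PRD) : T_LGP := by
  intro n P δ hδ
  have hq : ContDiff ℂ ∞ (fun z : V n => MvPolynomial.eval z P) := contDiff_eval P
  have hqR : ContDiff ℝ ∞ (fun z : V n => MvPolynomial.eval z P) := hq.restrict_scalars ℝ
  have hN : ContDiff ℝ ∞ (nq (fun z : V n => MvPolynomial.eval z P) (δ ^ 2)) :=
    (hqR.norm_sq ℝ).add contDiff_const
  have hpos : ∀ z : V n, 0 < nq (fun z : V n => MvPolynomial.eval z P) (δ ^ 2) z := by
    intro z
    unfold nq
    positivity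
  have e0 : lgd P δ = fun x => (fun s : ℝ => Real.log s / 2)
      (nq (fun z : V n => MvPolynomial.eval z P) (δ ^ 2) x) := rfl
  have hd : Differentiable ℂ (fun z : V n => MvPolynomial.eval z P) := hq.differentiable (by simp)
  constructor
  · rw [e0, contDiff_iff_contDiffAt]
    intro z
    exact ((Real.contDiffAt_log.2 (hpos z).ne').comp z hN.contDiffAt).div_const _
  · intro z v
    have hθ : ContDiffAt ℝ 2 (fun s : ℝ => Real.log s / 2)
        (nq (fun z : V n => MvPolynomial.eval z P) (δ ^ 2) z) :=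
      (Real.contDiffAt_log.2 (hpos z).ne').div_const _
    have hg : ContDiffAt ℝ 2 (nq (fun z : V n => MvPolynomial.eval z P) (δ ^ 2)) z := by
      exact_mod_cast (contDiff_infty.1 hN 2).contDiffAt
    have d1 : deriv (fun s : ℝ => Real.log s / 2) = fun s => s⁻¹ / 2 := by
      funext s
      rw [deriv_div_const, Real.deriv_log]
    have d2 : ∀ s : ℝ, deriv (fun s : ℝ => s⁻¹ / 2) s = -(s ^ 2)⁻¹ / 2 := by
      intro s
      rw [deriv_div_const, deriv_inv]
    rw [e0, (h2 n z v).2.2.2.2 _ _ hθ hg, d1, d2, lev_nq hq]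
    unfold ge
    rw [dr_nq (hd z), norm_mul, RCLike.norm_conj, mul_pow]
    set N := nq (fun z : V n => MvPolynomial.eval z P) (δ ^ 2) z with hNdef
    have hN0 : 0 < N := hpos z
    have hle : ‖MvPolynomial.eval z P‖ ^ 2 ≤ N := by
      rw [hNdef]
      unfold nq
      nlinarith [sq_nonneg δ]
    set p := ‖fderiv ℂ (fun z : V n => MvPolynomial.eval z P) z v‖ ^ 2 with hp
    have hp0 : 0 ≤ p := by positivity
    have : N⁻¹ / 2 * p + -(N ^ 2)⁻¹ / 2 * (‖MvPolynomial.eval z P‖ ^ 2 * p)
        = (N ^ 2)⁻¹ / 2 * p * (N - ‖MvPolynomial.eval z P‖ ^ 2) := by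
      field_simp
      ring
    rw [this]
    have h3 : 0 ≤ N - ‖MvPolynomial.eval z P‖ ^ 2 := by linarith
    positivity

end Pool.Agent.H41.VG
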