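import Pool.Agent.H95.VG.Targets1

/-! module LVX of MP_6803f2_an -/

open MeasureTheory Set Filter Topology
open scoped ENNReal NNReal ContDiff ComplexConjugate

namespace Pool.Agent.H41.VG

open Pool.Agent.H95.VG

variable {n : ℕ}

lemma dz_fsum {κ : Type*} (s : Finset κ) (g : κ → V n → ℂ) (z v : V n)
    (hg : ∀ i ∈ s, DifferentiableAt ℝ (g i) z) :
    dz (fun x => ∑ i ∈ s, g i x) z v = ∑ i ∈ s, dz (g i) z v := by
  unfold dz
  rw [fderiv_fun_sum hg]
  simp only [sum_apply, Finset.mul_sum, Finset.sum_div,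
    ← Finset.sum_sub_distrib]

lemma dzb_fsum {κ : Type*} (s : Finset κ) (g : κ → V n → ℂ) (z v : V n)
    (hg : ∀ i ∈ s, DifferentiableAt ℝ (g i) z) :
    dzb (fun x => ∑ i ∈ s, g i x) z v = ∑ i ∈ s, dzb (g i) z v := by
  unfold dzb
  rw [fderiv_fun_sum hg]
  simp only [sum_apply, Finset.mul_sum, Finset.sum_div,
    ← Finset.sum_add_distrib]

lemma fderiv_dir_diff {F : Type*} [NormedAddCommGroup F] [NormedSpace ℝ F] {g : V n → F}
    {z : V n} (hg : ContDiffAt ℝ 2 g z) (v : V n) :
    DifferentiableAt ℝ (fun x => fderiv ℝ g x v) z := by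
  have h : DifferentiableAt ℝ (fderiv ℝ g) z :=
    (hg.fderiv_right (m := 1) (by norm_num)).differentiableAt (by norm_num)
  exact h.clm_apply (differentiableAt_const v)

lemma dz_dir_diff {g : V n → ℂ} {z : V n} (hg : ContDiffAt ℝ 2 g z) (v : V n) :
    DifferentiableAt ℝ (fun x => dz g x v) z := by
  unfold dz
  simp only [div_eq_mul_inv]
  have h1 := fderiv_dir_diff hg v
  have h2 := fderiv_dir_diff hg (Complex.I • v)
  fun_prop

lemma dzb_dir_diff {g : V n → ℂ} {z : V n} (hg : ContDiffAt ℝ 2 g z) (v : V n) :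
    DifferentiableAt ℝ (fun x => dzb g x v) z := by
  unfold dzb
  simp only [div_eq_mul_inv]
  have h1 := fderiv_dir_diff hg v
  have h2 := fderiv_dir_diff hg (Complex.I • v)
  fun_prop

/-- module LVX -/
theorem lvx (h1 : T_LIN) (h2 : T_PRD) (h3 : T_LVM) : T_LVX := by
  intro n O F g hO hF hg z hz
  have hOz : O ∈ 𝓝 z := hO.mem_nhds hz
  have hgz : ContDiffAt ℝ 2 g z := hg.contDiffAt hOz
  have hFz : DifferentiableAt ℂ F z := hF.differentiableAt hOz
  have hFi : ∀ i, DifferentiableAt ℂ (fun x => F x i) z := fun i =>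
    (differentiableAt_pi.1 hFz) i
  have hFiR : ∀ i, DifferentiableAt ℝ (fun x => F x i) z := fun i =>
    (hFi i).restrictScalars ℝ
  have hFc : ∀ i, DifferentiableAt ℝ (fun x => conj (F x i)) z := fun i =>
    (Complex.conjCLE.differentiableAt (x := F z i)).comp z (hFiR i)
  have lev_eq := ((h3 n z (F z)).1 g hgz).2
  have sym := ((h3 n z (F z)).1 g hgz).1
  -- first
  have A : dzb (fun x => dz g x (F x)) z (F z)
      = ∑ i, F z i * dzb (fun x => dz g x (ek i)) z (F z) := by
    have e1 : (fun x => dz g x (F x)) = fun x => ∑ i, F x i * dz g x (ek i) := by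
      funext x
      exact ((h1 n x).1 g 0 (F x) 0).2.2.2.2.1
    rw [e1, dzb_fsum]
    · refine Finset.sum_congr rfl fun i _ => ?_
      rw [((h2 n z (F z)).1 (fun x => F x i) (fun x => dz g x (ek i)) (hFiR i)
        (dz_dir_diff hgz _)).2, ((h1 n z).2.2.1 (fun x => F x i) (F z) (hFi i)).2]
      ring
    · intro i _
      exact (hFiR i).mul (dz_dir_diff hgz _)
  have A2 : ∑ i, F z i * dzb (fun x => dz g x (ek i)) z (F z) = lev g z (F z) := by
    rw [lev_eq]
    refine Finset.sum_congr rfl fun i _ => ?_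
    rw [((h1 n z).1 (fun x => dz g x (ek i)) 0 (F z) 0).2.2.2.2.2.1, Finset.mul_sum]
    refine Finset.sum_congr rfl fun j _ => ?_
    ring
  have B : dz (fun x => dzb g x (F x)) z (F z)
      = ∑ j, conj (F z j) * dz (fun x => dzb g x (ek j)) z (F z) := by
    have e1 : (fun x => dzb g x (F x)) = fun x => ∑ i, conj (F x i) * dzb g x (ek i) := by
      funext x
      exact ((h1 n x).1 g 0 (F x) 0).2.2.2.2.2.1
    rw [e1, dz_fsum]
    · refine Finset.sum_congr rfl fun i _ => ?_
      have h0 : dz (fun x => conj (F x i)) z (F z) = 0 := by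
        rw [((h1 n z).2.1 (fun x => F x i) (F z) (hFiR i)).2,
          ((h1 n z).2.2.1 (fun x => F x i) (F z) (hFi i)).2, map_zero]
      rw [((h2 n z (F z)).1 (fun x => conj (F x i)) (fun x => dzb g x (ek i)) (hFc i)
        (dzb_dir_diff hgz _)).1, h0]
      ring
    · intro i _
      exact (hFc i).mul (dzb_dir_diff hgz _)
  have B2 : ∑ j, conj (F z j) * dz (fun x => dzb g x (ek j)) z (F z) = lev g z (F z) := by
    rw [lev_eq, Finset.sum_comm]
    refine Finset.sum_congr rfl fun j _ => ?_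
    rw [((h1 n z).1 (fun x => dzb g x (ek j)) 0 (F z) 0).2.2.2.2.1, Finset.mul_sum]
    refine Finset.sum_congr rfl fun i _ => ?_
    rw [sym i j]
    ring
  exact ⟨by rw [A, A2], by rw [B, B2], A2.symm⟩

end Pool.Agent.H41.VG
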