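import Pool.Agent.H95.VG.Targets1

/-! module NSQ of MP_6803f2_an -/

open MeasureTheory Set Filter Topology
open scoped ENNReal NNReal ContDiff ComplexConjugate

namespace Pool.Agent.H41.VG

open Pool.Agent.H95.VG

variable {n : ℕ}

/-- hermitian product -/
noncomputable def hp (z v : V n) : ℂ := ∑ i, conj (z i) * v i

lemma hp_smul (z v : V n) (c : ℂ) : hp z (c • v) = c * hp z v := by
  unfold hp
  rw [Finset.mul_sum]
  refine Finset.sum_congr rfl fun i _ => ?_
  rw [Pi.smul_apply, smul_eq_mul]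
  ring

lemma hp_self (z : V n) : hp z z = (nsq z : ℂ) := by
  unfold hp nsq
  push_cast
  refine Finset.sum_congr rfl fun i _ => ?_
  rw [mul_comm, Complex.mul_conj, Complex.normSq_eq_norm_sq]
  push_cast
  rfl

lemma hp_cs (z v : V n) : ‖hp z v‖ ^ 2 ≤ nsq z * nsq v := by
  have h1 : ‖hp z v‖ ≤ ∑ i, ‖z i‖ * ‖v i‖ := by
    unfold hp
    refine (norm_sum_le _ _).trans (Finset.sum_le_sum fun i _ => ?_)
    rw [norm_mul, RCLike.norm_conj]
  calc ‖hp z v‖ ^ 2 ≤ (∑ i, ‖z i‖ * ‖v i‖) ^ 2 := by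
        gcongr
    _ ≤ (∑ i, ‖z i‖ ^ 2) * ∑ i, ‖v i‖ ^ 2 := Finset.sum_mul_sq_le_sq_mul_sq _ _ _
    _ = nsq z * nsq v := rfl

lemma nsq_nonneg (z : V n) : 0 ≤ nsq z := Finset.sum_nonneg fun i _ => by positivity

lemma hasFDerivAt_nsq (z : V n) : ∃ L : V n →L[ℝ] ℝ, HasFDerivAt nsq L z ∧
    ∀ v, L v = 2 * (hp z v).re := by
  have h1 : ∀ i : Fin n, HasFDerivAt (fun x : V n => ‖x i‖ ^ 2)
      ((2 • (innerSL ℝ (z i) : ℂ →L[ℝ] ℝ)).comp
        (ContinuousLinearMap.proj (R := ℝ) (φ := fun _ : Fin n => ℂ) i)) z := by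
    intro i
    have := (hasStrictFDerivAt_norm_sq (z i)).hasFDerivAt
    exact this.comp z (ContinuousLinearMap.proj (R := ℝ) (φ := fun _ : Fin n => ℂ) i).hasFDerivAt
  have h2 := HasFDerivAt.fun_sum (u := Finset.univ) fun i _ => h1 i
  refine ⟨_, h2, fun v => ?_⟩
  simp only [sum_apply, ContinuousLinearMap.comp_apply,
    ContinuousLinearMap.proj_apply, hp, Complex.re_sum, Finset.mul_sum]
  refine Finset.sum_congr rfl fun i _ => ?_
  simp [innerSL_apply_apply, Complex.inner]
  ring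

lemma fderiv_nsq (z v : V n) : fderiv ℝ nsq z v = 2 * (hp z v).re := by
  obtain ⟨L, hL, hv⟩ := hasFDerivAt_nsq z
  rw [hL.fderiv, hv]

lemma contDiff_nsq : ContDiff ℝ ∞ (nsq (n := n)) := by
  unfold nsq
  refine ContDiff.sum fun i _ => ?_
  have : ContDiff ℝ ∞ (fun z : V n => z i) :=
    (ContinuousLinearMap.proj (R := ℝ) (φ := fun _ : Fin n => ℂ) i).contDiff
  exact this.norm_sq ℝ

lemma dr_nsq (z v : V n) : dr nsq z v = hp z v := by
  unfold dr
  rw [fderiv_nsq, fderiv_nsq, hp_smul]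
  apply Complex.ext <;> simp

lemma lev_nsq (z v : V n) : lev nsq z v = nsq v := by
  have h1 : ∀ w u : V n, fderiv ℝ (fun x => fderiv ℝ nsq x w) z u = 2 * (hp u w).re := by
    intro w u
    have e1 : (fun x => fderiv ℝ nsq x w)
        = fun x : V n => ∑ i, 2 * ((x i).re * (w i).re + (x i).im * (w i).im) := by
      funext x
      rw [fderiv_nsq, hp, Complex.re_sum, Finset.mul_sum]
      refine Finset.sum_congr rfl fun i _ => ?_
      simp
    rw [e1]
    let L : V n →ₗ[ℝ] ℝ :=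
      { toFun := fun x => ∑ i, 2 * ((x i).re * (w i).re + (x i).im * (w i).im)
        map_add' := by
          intro x y
          rw [← Finset.sum_add_distrib]
          refine Finset.sum_congr rfl fun i _ => ?_
          simp
          ring
        map_smul' := by
          intro c x
          simp only [RingHom.id_apply, smul_eq_mul]
          rw [Finset.mul_sum]
          refine Finset.sum_congr rfl fun i _ => ?_
          simp
          ring }
    have e2 : (fun x : V n => ∑ i, 2 * ((x i).re * (w i).re + (x i).im * (w i).im))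
        = (LinearMap.toContinuousLinearMap L : V n →L[ℝ] ℝ) := rfl
    rw [e2, ContinuousLinearMap.fderiv]
    change ∑ i, 2 * ((u i).re * (w i).re + (u i).im * (w i).im) = _
    rw [hp, Complex.re_sum, Finset.mul_sum]
    refine Finset.sum_congr rfl fun i _ => ?_
    simp
  unfold lev
  rw [h1, h1]
  have h2 : nsq (Complex.I • v) = nsq v := by
    unfold nsq
    simp
  rw [hp_self, hp_self, h2]
  simp
  ring

lemma nsq_eq_zero (z : V n) : nsq z = 0 ↔ z = 0 := by
  unfold nsq
  rw [Finset.sum_eq_zero_iff_of_nonneg (fun i _ => by positivity)]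
  constructor
  · intro h
    funext i
    have := h i (Finset.mem_univ i)
    simpa using this
  · rintro rfl i _
    simp

lemma lu_eq : (lu (n := n)) = fun x => (fun s : ℝ => Real.log s / 2) (nsq x) := rfl

lemma deriv_log2 : deriv (fun s : ℝ => Real.log s / 2) = fun s => s⁻¹ / 2 := by
  funext s
  rw [deriv_div_const, Real.deriv_log]

lemma deriv_inv2 (s : ℝ) : deriv (fun s : ℝ => s⁻¹ / 2) s = -(s ^ 2)⁻¹ / 2 := by
  rw [deriv_div_const, deriv_inv]

lemma lu_forms (h2 : T_PRD) (z v : V n) (hz : 0 < nsq z) :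
    dr lu z v = (((nsq z)⁻¹ / 2 : ℝ) : ℂ) * hp z v ∧
    lev lu z v = (nsq z)⁻¹ / 2 * nsq v + -(nsq z ^ 2)⁻¹ / 2 * ‖hp z v‖ ^ 2 := by
  have hθ : ContDiffAt ℝ 2 (fun s : ℝ => Real.log s / 2) (nsq z) :=
    (Real.contDiffAt_log.2 hz.ne').div_const _
  have hg : ContDiffAt ℝ 2 (nsq (n := n)) z := by
    exact_mod_cast (contDiff_infty.1 contDiff_nsq 2).contDiffAt
  constructor
  · rw [lu_eq, (h2 n z v).2.2.2.1 _ _ (hθ.differentiableAt (by norm_num))
      (hg.differentiableAt (by norm_num)), deriv_log2, dr_nsq]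
  · rw [lu_eq, (h2 n z v).2.2.2.2 _ _ hθ hg, deriv_log2, deriv_inv2, lev_nsq]
    unfold ge
    rw [dr_nsq]

/-- module NSQ -/
theorem nsq_mod (h2 : T_PRD) : T_NSQ := by
  intro n
  refine ⟨contDiff_nsq, ?_, nsq_eq_zero, lev_nsq, ?_, ?_⟩
  · rw [lu_eq]
    intro z hz
    have : ContDiffAt ℝ ∞ (fun x => Real.log (nsq x) / 2) z :=
      ((Real.contDiffAt_log.2 (ne_of_gt hz)).comp z contDiff_nsq.contDiffAt).div_const _
    exact this.contDiffWithinAt
  · intro z v hz
    obtain ⟨e1, e2⟩ := lu_forms h2 z v hz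
    have hcs := hp_cs z v
    have hv := nsq_nonneg v
    have e3 : ge lu z v = (nsq z ^ 2)⁻¹ / 4 * ‖hp z v‖ ^ 2 := by
      unfold ge
      rw [e1, norm_mul, mul_pow, Complex.norm_real, Real.norm_eq_abs, sq_abs]
      congr 1
      field_simp
      norm_num
    have e4 : ‖dr lu z v‖ ^ 2 = ge lu z v := rfl
    refine ⟨?_, ?_, ?_⟩
    · rw [e2]
      have : (nsq z)⁻¹ / 2 * nsq v + -(nsq z ^ 2)⁻¹ / 2 * ‖hp z v‖ ^ 2
          = (nsq z ^ 2)⁻¹ / 2 * (nsq z * nsq v - ‖hp z v‖ ^ 2) := by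
        field_simp
        ring
      rw [this]
      have h3 : 0 ≤ nsq z * nsq v - ‖hp z v‖ ^ 2 := by linarith
      positivity
    · rw [e2, e3]
      field_simp
      ring
    · rw [e4, e3, le_div_iff₀ hz]
      have : (nsq z ^ 2)⁻¹ / 4 * ‖hp z v‖ ^ 2 * nsq z = (nsq z)⁻¹ / 4 * ‖hp z v‖ ^ 2 := by
        field_simp
      rw [this]
      calc (nsq z)⁻¹ / 4 * ‖hp z v‖ ^ 2 ≤ (nsq z)⁻¹ / 4 * (nsq z * nsq v) := by gcongr
        _ = nsq v / 4 := by field_simp
        _ ≤ nsq v := by linarith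
  · intro z
    constructor
    · by_cases hn : (Finset.univ : Finset (Fin n)).Nonempty
      · obtain ⟨i, _, hi⟩ := Finset.exists_mem_eq_sup' hn (fun i => ‖z i‖₊)
        have h1 : ‖z‖ ≤ ‖z i‖ := by
          rw [pi_norm_le_iff_of_nonneg (norm_nonneg _)]
          intro j
          have : ‖z j‖₊ ≤ Finset.univ.sup' hn (fun i => ‖z i‖₊) :=
            Finset.le_sup' (fun i => ‖z i‖₊) (Finset.mem_univ j)
          rw [hi] at this
          exact_mod_cast this
        calc ‖z‖ ^ 2 ≤ ‖z i‖ ^ 2 := by gcongr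
          _ ≤ nsq z := Finset.single_le_sum (f := fun i => ‖z i‖ ^ 2)
            (fun i _ => by positivity) (Finset.mem_univ i)
      · have : IsEmpty (Fin n) := by
          by_contra h
          rw [not_isEmpty_iff] at h
          exact hn Finset.univ_nonempty
        have hz : z = 0 := Subsingleton.elim _ _
        rw [hz, norm_zero]
        have := nsq_nonneg (0 : V n)
        simpa using this
    · calc nsq z ≤ ∑ _i : Fin n, ‖z‖ ^ 2 := by
            refine Finset.sum_le_sum fun i _ => ?_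
            have := norm_le_pi_norm z i
            gcongr
        _ = n * ‖z‖ ^ 2 := by simp

end Pool.Agent.H41.VG
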